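import Pool.Agent.H57.AVN.Cgs

/-!
# The closed gradient of the place two with a deep spectator: the conclusion

`CGt`: the gradient of the target `3` in the direction of the place `2` is closed; the place `1` is a
spectator below `2`, of a larger slope, its gradient is closed at the larger ball. The list is the
swapped one of `CGs`.
-/

set_option autoImplicit false

namespace Pool.TSW66

open Finset Real MvPolynomial MeasureTheory Filter Topology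
open Pool.Agent.H49.Ent Pool.Agent.H32.Dense Pool.STK Pool.KA Pool.KSAT Pool.K2S Pool.PB Pool.S6C
open Pool.GEN Pool.CHT Pool.CHX Pool.ISO Pool.RCD Pool.LA91 Pool.AVG96 Pool.AVG57
open Pool.PB.Trl (rt rt_mem t_rt)
open Pool.D2R (hgt gnh GrdE chs)
open Pool.BFL (Pb)

variable {m : ℕ}

/-- **The gradient in the direction of the place `2` is closed**, for the target `3` and the
spectator `1`, at a window between `w` and `w + δW`. The balls `j'`, `x'` and the numbers `q'`, `ξ'`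
belong to the first step (the gradient in the direction of the spectator), `j`, `x`, `q`, `ξ` to the
second. `σ`: the loss of the change of the frame. -/
def CGt (S : PCl m) (c : ℕ → Fin m) (K : ℕ) (w δW j' x' j x : ℝ) (p s : ℕ → ℝ)
    (q' ξ' q ξ μ σ κ₂ ι : ℝ) (k₁ : ℕ) (ε : ℝ) : Prop :=
  ∀ E : ℝ, Bas S (fun J F B => ∀ (ks' nn' ks nn : ℕ) (gm : ℕ → ℕ)
    (G : ℕ → PtT F → ℕ → MvPolynomial (Option (Fin m)) ℝ)
    (H : LnT F → ℕ → MvPolynomial (Option (Fin m)) ℝ) (U : ℝ),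
    LbsE F c 2 K w p s E gm B (G 0) H → (∀ k a l, DepC c l (G k a l)) →
    ClU F 4 ks' ⌊j' * J⌋₊ B G → ClU F 4 nn' ⌊x' * J⌋₊ B G → ks' ≤ nn' →
    ClU F 4 ks ⌊j * J⌋₊ B G → ClU F 4 nn ⌊x * J⌋₊ B G → ks ≤ nn →
    GrdE F c 0 3 ks' nn' ⌊(q' - σ) * J⌋₊ ⌊ξ' * J⌋₊ gm U B G →
    GrdE F c 0 3 ks nn ⌊(q - σ) * J⌋₊ ⌊ξ * J⌋₊ gm U B G →
    (∀ ω, B ω → ∀ l, 1 ≤ l → l ≤ 2 → |gnh F c 3 gm (G 0) (G nn) ω l -
      gnh F c 3 gm (G 0) (G nn') ω l| ≤ U / 2 ^ ⌊ξ * J⌋₊) →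
    U ≤ 2 ^ ((μ / 2 - 2 * σ) * J) →
    ∃ W : ℕ, ⌊w * J⌋₊ ≤ W ∧ (W : ℝ) ≤ (w + δW) * J ∧ ∃ mu : LnT F → Polynomial ℝ,
      (∀ s, (mu s).natDegree ≤ 2 * K + 2) ∧
      (∀ s (u : ℝ), |(mu s).eval u| ≤ ((2 * K + 2 : ℕ) + 1) * (2 ^ k₁ * (|u| + 1)) ^ (2 * K + 2) *
        (2 : ℝ) ^ (ι * ⌊ξ * J⌋₊)) ∧
      Pb (Pool.Agent.H49.Ent.cond F.p B True) (fun ω => (2 : ℝ) ^ (-(κ₂ * ⌊ξ * J⌋₊)) <
        |gnh F c 3 gm (G 0) (G nn) ω 2 -
          (mu (slam F W ω)).eval (rt F W ω)|) ≤ ε)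

/-- Labels of larger precisions. -/
theorem CGt.mono {S : PCl m} {c : ℕ → Fin m} {K : ℕ} {w δW j' x' j x : ℝ} {p p₁ s : ℕ → ℝ}
    {q' ξ' q ξ μ σ κ₂ ι : ℝ} {k₁ : ℕ} {ε : ℝ}
    (h : CGt S c K w δW j' x' j x p₁ s q' ξ' q ξ μ σ κ₂ ι k₁ ε) (hp : ∀ l ≤ 3, p₁ l ≤ p l) :
    CGt S c K w δW j' x' j x p s q' ξ' q ξ μ σ κ₂ ι k₁ ε := by
  intro E
  refine Bas.mono 0 (h E) ?_
  rintro J - F B g ks' nn' ks nn gm G H U hL
  refine g ks' nn' ks nn gm G H U ⟨hL.deg, hL.dep, hL.cls, hL.pos, fun l hl => ?_, hL.hi, hL.co⟩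
  exact (Nat.floor_le_floor (mul_le_mul_of_nonneg_right (hp l hl) (Nat.cast_nonneg J))).trans
    (hL.lo l hl)

end Pool.TSW66
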