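import Pool.Agent.H66.TSW.Bxu
import Pool.Agent.H66.TSW.Cgt
import Pool.Agent.H95.TSW.Nba
import Pool.Agent.H50.TSW.Chv
import Pool.Agent.H57.AVN.C2m
import Pool.Agent.H24.PLN.Aff1
import Pool.Agent.H4.TSW.Bxn

/-!
# The closed gradient of the place two from the one of the swapped list

`cgt_of`: `CGt` from `CGs` for the swapped list and a closed affine chart of the coordinate of the place
`2` over the place `0` alone.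
-/

set_option autoImplicit false

namespace Pool.TSW66

open Finset Real MvPolynomial
open Pool.Agent.H49.Ent Pool.Agent.H32.Dense Pool.STK Pool.KA Pool.KSAT Pool.K2S Pool.PB Pool.S6C
open Pool.GEN Pool.CHT Pool.CHX Pool.ISO Pool.RCD Pool.LA91 Pool.AVG96 Pool.AVG57 Pool.D2R
open Pool.TSW50 (ChR)
open Pool.TSW95 (nbx_act)
open Pool.GRD (LbP)
open Pool.PLA (bas_large)
open Pool.MIC6 (deg_afq eval_afq)
open Pool.OWN17 (ChA cpl oh)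
open Pool.PB.Trl (rt rt_mem t_rt)
open Pool.BFL (Pb)
open Pool.SWP (sw sw_mem sw_sw)

variable {m : ℕ}

theorem pow_le_r {n : ℕ} {x : ℝ} (h : (n : ℝ) ≤ x) : (2 : ℝ) ^ n ≤ 2 ^ x := by
  rw [← Real.rpow_natCast]
  exact Real.rpow_le_rpow_of_exponent_le (by norm_num) h

theorem r_le_pow {n : ℕ} {x : ℝ} (h : x ≤ n) : (2 : ℝ) ^ x ≤ 2 ^ n := by
  rw [← Real.rpow_natCast]
  exact Real.rpow_le_rpow_of_exponent_le (by norm_num) h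

/-- The size of the components of the difference. -/
theorem lam_num {σ φ K C t : ℝ} (hφ : 0 ≤ φ) (hK : 0 ≤ K) (hφσ : 2 * (K + 4) * φ ≤ σ)
    (hC : 0 ≤ C) (ht : 0 ≤ t) (hT : 8 + 144 * C ≤ 2 ^ (σ * t / 4)) {e d D g M₂ : ℕ}
    (he : (e : ℝ) ≤ φ * t + 1) (hd : (d : ℝ) ≤ (σ / 8 + φ) * t + 2) (hg : g ≤ M₂ + e)
    (hD : σ * t - 1 ≤ D) :
    4 * 2 ^ e + 9 * (C * (2 ^ ((σ / 8 + (K + 1) * φ) * t) * (1 / 2 ^ g + 1 / 2 ^ M₂)) * 2 ^ g *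
      2 ^ d) ≤ 4 * (2 : ℝ) ^ D := by
  obtain ⟨T, hTe⟩ : ∃ T : ℝ, T = 2 ^ (σ * t / 4) := ⟨_, rfl⟩
  rw [← hTe] at hT
  have hT0 : 0 < T := by linarith
  have hT1 : 1 ≤ T := by linarith
  have rp : ∀ x y : ℝ, x ≤ y → (2 : ℝ) ^ x ≤ 2 ^ y := fun x y h =>
    Real.rpow_le_rpow_of_exponent_le (by norm_num) h
  have ra : ∀ x y : ℝ, (2 : ℝ) ^ (x + y) = 2 ^ x * 2 ^ y := fun x y =>
    Real.rpow_add (by norm_num) x y
  have r1 : (2 : ℝ) ^ (1 : ℝ) = 2 := Real.rpow_one 2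
  have r3 : (2 : ℝ) ^ (3 : ℝ) = 8 := by norm_num
  have eT3 : T ^ 3 = 2 ^ (σ * t * (3 / 4)) := by
    rw [hTe, ← Real.rpow_natCast, ← Real.rpow_mul (by norm_num)]
    congr 1
    push_cast
    ring
  have eT4 : T ^ 4 = 2 ^ (σ * t) := by
    rw [hTe, ← Real.rpow_natCast, ← Real.rpow_mul (by norm_num)]
    congr 1
    push_cast
    ring
  have hKφ : 0 ≤ K * φ := mul_nonneg hK hφ
  have hφs : 8 * φ ≤ σ := by linarith
  have hφt : φ * t ≤ σ * t / 4 := by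
    have : 8 * φ * t ≤ σ * t := mul_le_mul_of_nonneg_right hφs ht
    have h0 : 0 ≤ φ * t := mul_nonneg hφ ht
    linarith
  -- the power of the side
  have a1 : (2 : ℝ) ^ e ≤ 2 * T := by
    refine (pow_le_r he).trans ?_
    rw [ra, r1, hTe, mul_comm]
    exact mul_le_mul_of_nonneg_left (rp _ _ hφt) (by norm_num)
  have a2 : 2 * T ^ 4 ≤ 4 * (2 : ℝ) ^ D := by
    have h1 := r_le_pow hD
    have h2 := ra (σ * t - 1) 1
    rw [r1, sub_add_cancel, ← eT4] at h2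
    linarith
  -- the product
  have p1 : (2 : ℝ) ^ g ≤ 2 ^ M₂ * 2 ^ e := by
    rw [← pow_add]
    exact pow_le_pow_right₀ (by norm_num) hg
  have p2 : (1 / 2 ^ g + 1 / 2 ^ M₂) * 2 ^ g ≤ 2 * (2 : ℝ) ^ e := by
    have h1 : (1 : ℝ) ≤ 2 ^ e := one_le_pow₀ (by norm_num)
    have h2 : (1 : ℝ) / 2 ^ M₂ * 2 ^ g ≤ 2 ^ e := by
      rw [one_div, inv_mul_le_iff₀ (by positivity)]
      exact p1
    have h3 : (1 : ℝ) / 2 ^ g * 2 ^ g = 1 := by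
      field_simp
    rw [add_mul, h3]
    linarith
  have p3 : C * (2 ^ ((σ / 8 + (K + 1) * φ) * t) * (1 / 2 ^ g + 1 / 2 ^ M₂)) * 2 ^ g * 2 ^ d ≤
      16 * C * T ^ 3 := by
    have e1 : C * (2 ^ ((σ / 8 + (K + 1) * φ) * t) * (1 / 2 ^ g + 1 / 2 ^ M₂)) * 2 ^ g * 2 ^ d =
        C * (2 ^ ((σ / 8 + (K + 1) * φ) * t) * 2 ^ d) *
          ((1 / 2 ^ g + 1 / 2 ^ M₂) * (2 : ℝ) ^ g) := by ring
    rw [e1]
    have q0 : (0 : ℝ) < 2 ^ ((σ / 8 + (K + 1) * φ) * t) := Real.rpow_pos_of_pos (by norm_num) _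
    calc C * (2 ^ ((σ / 8 + (K + 1) * φ) * t) * 2 ^ d) *
          ((1 / 2 ^ g + 1 / 2 ^ M₂) * (2 : ℝ) ^ g)
        ≤ C * (2 ^ ((σ / 8 + (K + 1) * φ) * t) * 2 ^ d) * (2 * (2 : ℝ) ^ e) :=
          mul_le_mul_of_nonneg_left p2 (by positivity)
      _ ≤ C * (2 ^ ((σ / 8 + (K + 1) * φ) * t) * 2 ^ ((σ / 8 + φ) * t + 2)) *
          (2 * (2 : ℝ) ^ (φ * t + 1)) := by
          refine mul_le_mul ?_ ?_ (by positivity) (by positivity)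
          · exact mul_le_mul_of_nonneg_left (mul_le_mul_of_nonneg_left (pow_le_r hd) q0.le) hC
          · exact mul_le_mul_of_nonneg_left (pow_le_r he) (by norm_num)
      _ = 2 * C * 2 ^ ((σ / 8 + (K + 1) * φ) * t + ((σ / 8 + φ) * t + 2) + (φ * t + 1)) := by
          rw [ra ((σ / 8 + (K + 1) * φ) * t + ((σ / 8 + φ) * t + 2)) (φ * t + 1),
            ra ((σ / 8 + (K + 1) * φ) * t) ((σ / 8 + φ) * t + 2)]
          ring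
      _ ≤ 2 * C * (8 * T ^ 3) := by
          refine mul_le_mul_of_nonneg_left ?_ (by positivity)
          rw [eT3, ← r3, ← ra]
          refine rp _ _ ?_
          have h1 : (2 * (K + 4) * φ) * t ≤ σ * t := mul_le_mul_of_nonneg_right hφσ ht
          have h2 : 0 ≤ φ * t := mul_nonneg hφ ht
          nlinarith
      _ = 16 * C * T ^ 3 := by ring
  have hTT : T ≤ T ^ 3 := by
    calc T = T * 1 := (mul_one T).symm
      _ ≤ T * T ^ 2 := mul_le_mul_of_nonneg_left (one_le_pow₀ hT1) hT0.le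
      _ = T ^ 3 := by ring
  have fin : (8 + 144 * C) * T ^ 3 ≤ T * T ^ 3 := mul_le_mul_of_nonneg_right hT (by positivity)
  have e4 : T * T ^ 3 = T ^ 4 := by ring
  have hT4 : 0 ≤ T ^ 4 := by positivity
  nlinarith

theorem grdE_up {J : ℕ} {F : Fam m J} {c : ℕ → Fin m} {k₀ i ks n q X : ℕ} {γ : ℕ → ℕ} {U U' : ℝ}
    {B : F.Ω → Prop} {G : ℕ → PtT F → ℕ → MvPolynomial (Option (Fin m)) ℝ}
    (h : GrdE F c k₀ i ks n q X γ U B G) (hU : U ≤ U') : GrdE F c k₀ i ks n q X γ U' B G := by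
  have hX : U / 2 ^ X ≤ U' / 2 ^ X := div_le_div_of_nonneg_right hU (by positivity)
  exact ⟨h.U0.trans hU, fun ω hω j a b => (h.bm ω hω j a b).trans hU,
    fun ω ν a b a1 a2 a3 a4 j a5 a6 => (h.bj ω ν a b a1 a2 a3 a4 j a5 a6).trans hX,
    fun ω ν a b a1 a2 a3 a4 j a5 a6 => (h.bx ω ν a b a1 a2 a3 a4 j a5 a6).trans hX,
    fun ω ν a b a1 a2 a3 a4 => (h.nx ω ν a b a1 a2 a3 a4).trans hX⟩

/-- The levels of a chain. -/
theorem chn_congr {S : PCl m} {c : ℕ → Fin m} {r₀ r : ℕ} {w u₀ u₁ : ℝ} {s s' rd : ℕ → ℝ}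
    (h : Chn S c r₀ r w u₀ u₁ s rd) (hs : ∀ l, r₀ ≤ l → l < r → s l = s' l) :
    Chn S c r₀ r w u₀ u₁ s' rd := by
  refine ⟨h.hr, h.inj, h.w0, h.wu0, h.u0, h.wu1, h.u1, fun i a b => ?_, h.r1, fun i a b => ?_,
    h.base, h.pre, fun ρ hρ => ?_⟩
  · rw [← hs i a b]
    exact h.s0 i a b
  · rw [← hs i a b]
    exact h.att i a b
  · refine Bas.mono 0 (h.ful ρ hρ) ?_
    rintro J - F A g V z z' hz i a b
    rw [← hs i a b]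
    exact g V z z' hz i a b

/-- **`CGt` from `CGs` of the swapped list.** -/
theorem cgt_of {S : PCl m} {C₀ : ℝ} (htm : TmC S C₀) {c : ℕ → Fin m}
    (hc : Set.InjOn c (Set.Iio 4)) {K : ℕ} (hK : 1 ≤ K)
    {w δW j' x' j x q' ξ' q ξ μ σ κ₂ ι ε : ℝ} {p s : ℕ → ℝ} {k₁ : ℕ} {r : ℕ} {u₁ : ℝ}
    {s₀ rd : ℕ → ℝ} (hr : 2 ≤ r) (hch : Chn S c 1 r w w u₁ s₀ rd) {b₀ pv φ : ℝ} (hb₀ : b₀ ≤ w)
    (hV : ChR S (c 0) (c 2) b₀ pv) (hpv : p 2 < pv) (hφ : 0 ≤ φ) (h0 : w - φ ≤ p 0)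
    (hs : ∀ l, 1 ≤ l → l < r → s₀ l = s l) (h1 : s₀ 1 - φ ≤ p 1) (h2 : s 2 - φ ≤ p 2)
    (hσ : 0 < σ) (hφσ : 2 * (K + 4) * φ ≤ σ) (hξq : ξ + σ ≤ q) (hξq' : ξ' + σ ≤ q') (hξ : 0 ≤ ξ) (hξ' : 0 ≤ ξ') (hwj : w ≤ j)
    (hwx : w ≤ x) (hwj' : w ≤ j') (hwx' : w ≤ x') (hε : 0 < ε)
    (hcg : CGs S (fun l => c (sw 1 l)) 1 K w δW j' x' j x (fun l => p (sw 1 l))
      (fun l => s (sw 1 l)) q' ξ' q ξ μ κ₂ ι k₁ (ε / 2)) :
    CGt S c K w δW j' x' j x p s q' ξ' q ξ μ σ κ₂ ι k₁ ε := by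
  classical
  intro E
  obtain ⟨C, hC1, hBN'⟩ := Pool.TSW4.box_ncp K
  have hBN : BoxN K C := @hBN'
  have hC0 : 0 ≤ C := by linarith
  have hw0 := hch.w0
  have hw1 : w < 1 := hch.u0
  obtain ⟨u₂, hu, hu2, hu3⟩ : ∃ u₂ : ℝ, w < u₂ ∧ u₂ < 1 ∧ u₂ ≤ w + σ / 8 := by
    refine ⟨min (w + σ / 8) ((w + 1) / 2), lt_min (by linarith) (by linarith), ?_,
      min_le_left _ _⟩
    exact lt_of_le_of_lt (min_le_right _ _) (by linarith)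
  obtain ⟨η, hη0, hη1, hηε⟩ : ∃ η : ℝ, 0 < η ∧ η ≤ 1 / 2 ∧ η ≤ ε / 2 :=
    ⟨min (1 / 2) (ε / 2), lt_min (by norm_num) (by linarith), min_le_left _ _, min_le_right _ _⟩
  obtain ⟨e₀, he₀, he₀p⟩ : ∃ e₀ : ℝ, 0 < e₀ ∧ p 2 ≤ pv - e₀ :=
    ⟨pv - p 2, by linarith, by linarith⟩
  have hK0 : (0 : ℝ) ≤ K := Nat.cast_nonneg K
  have hφ8 : 8 * φ ≤ σ := by nlinarith [mul_nonneg hK0 hφ]
  have b1 := nbx_act htm (chn_congr hch hs) hr hu hu2 K (p := p) E hφ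
    (by rw [← hs 1 le_rfl (by omega)]; exact h1) (show 0 < σ / 8 by linarith) hη0
  have b2 := (hV.win hb₀ hw1.le le_rfl) e₀ he₀
  have b3 := bas_large (hcg (max E 1)) (κ := 1 / 2) (by norm_num)
  obtain ⟨J₁, hJ₁⟩ := exists_nat_ge (max 4 (24 / σ))
  obtain ⟨J₂, hJ₂⟩ := exists_nat_ge ((8 + 144 * C) / (σ / 8))
  refine Bas.mono (max J₁ J₂) (((b1.and b2).and b3).and (Pool.GRW.tmc_bas htm one_pos)) ?_
  rintro J hJ F B ⟨⟨⟨k1, a, ha⟩, k3⟩, hB0, -⟩ ks' nn' ks nn gm G H U hL hdep hcj' hcx' hkn' hcj hcx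
    hkn hG' hG hnn hU
  have hJ0 : (0 : ℝ) ≤ J := Nat.cast_nonneg J
  have hJ1 : (max 4 (24 / σ) : ℝ) ≤ J := hJ₁.trans (by exact_mod_cast (le_max_left _ _).trans hJ)
  have hJ4 : (4 : ℝ) ≤ J := (le_max_left _ _).trans hJ1
  have hJ4n : 4 ≤ J := by exact_mod_cast hJ4
  have hσJ : 24 ≤ σ * J := by
    have := (le_max_right _ _).trans hJ1
    rw [div_le_iff₀ hσ] at this
    linarith
  have hT : 8 + 144 * C ≤ (2 : ℝ) ^ (σ * J / 4) := by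
    have g1 : ((8 + 144 * C) / (σ / 8) : ℝ) ≤ J := hJ₂.trans (by
      exact_mod_cast (le_max_right _ _).trans hJ)
    rw [div_le_iff₀ (by positivity)] at g1
    have g2 : (8 + 144 * C) ≤ σ * J / 4 * (1 / 2) := by linarith
    have g3 : σ * J / 4 * Real.log 2 + 1 ≤ Real.exp (σ * J / 4 * Real.log 2) :=
      Real.add_one_le_exp _
    rw [Real.rpow_def_of_pos (by norm_num), mul_comm (Real.log 2)]
    have g4 : (1 / 2 : ℝ) ≤ Real.log 2 := by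
      have := Real.log_two_gt_d9
      linarith
    have g5 : σ * J / 4 * (1 / 2) ≤ σ * J / 4 * Real.log 2 :=
      mul_le_mul_of_nonneg_left g4 (by positivity)
    linarith
  have hwJ : ⌊w * J⌋₊ ≤ J := floor_le hw1.le J
  -- the chart over the base
  obtain ⟨φ', hφ'⟩ := ha.cls
  obtain ⟨M₂, hM₂⟩ : ∃ M₂, M₂ = ⌊(pv - e₀) * J⌋₊ := ⟨_, rfl⟩
  rw [← hM₂] at ha
  have hM₂p : ⌊p 2 * J⌋₊ ≤ M₂ := by
    rw [hM₂]
    exact Nat.floor_le_floor (mul_le_mul_of_nonneg_right he₀p hJ0)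
  obtain ⟨g2, hg2⟩ : ∃ g2 : PtT F → MvPolynomial (Option (Fin m)) ℝ,
    g2 = fun y => cpl (c 0) (c 0) (φ' y) := ⟨_, rfl⟩
  have hg2d : ∀ y, DepC c 1 (g2 y) := fun y b b' g0 g1 => by
    rw [hg2]
    show eval b (cpl (c 0) (c 0) (φ' y)) = eval b' (cpl (c 0) (c 0) (φ' y))
    unfold cpl
    rw [eval_afq, eval_afq, g0, g1 0 (by norm_num)]
  have hlb : LbP F ((range 1).image c) (c 2) K J ⌊w * J⌋₊ M₂ B φ' a (cpl (c 0) (c 0)) := by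
    refine ⟨fun v => (deg_afq _ _ _ _ _ _).trans hK, fun v b b' g0 g1 => ?_,
      fun ω hω => (hφ' ω hω).symm, fun ω hω => ?_⟩
    · unfold cpl
      rw [eval_afq, eval_afq, g0, g1 (c 0) (Finset.mem_image_of_mem _ (Finset.mem_range.2
        (by norm_num)))]
    · have g1 := ha.pos ω hω
      have e1 : F.x ω (c 2) - eval (bt F ω) (cpl (c 0) (c 0) (a (slam F ⌊w * J⌋₊ ω))) =
          oh F (c 0) (c 0) (c 2) (a (slam F ⌊w * J⌋₊ ω)) ω := by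
        unfold cpl
        rw [eval_afq]
        show F.x ω (c 2) - (a (slam F ⌊w * J⌋₊ ω) 0 + (a (slam F ⌊w * J⌋₊ ω) 1 * F.t ω +
          (a (slam F ⌊w * J⌋₊ ω) 2 * F.x ω (c 0) + a (slam F ⌊w * J⌋₊ ω) 3 *
            F.x ω (c 0)))) = _
        unfold oh
        ring
      rw [e1]
      exact g1
  -- the bad event
  have kq := k1 gm (G 0) H hL (fun y l => hdep 0 y l) _ φ' a (cpl (c 0) (c 0)) M₂ hlb
  obtain ⟨M, hM⟩ : ∃ M : ℝ, M = 2 ^ ((σ / 8 + (K + 1) * φ) * J) * (1 / 2 ^ gm 2 + 1 / 2 ^ M₂) :=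
    ⟨_, rfl⟩
  rw [← hM] at kq
  obtain ⟨Q, hQ⟩ : ∃ Q : F.Ω → Prop, Q = fun ω => ¬ ∀ b : Option (Fin m) → ℝ,
        |b none - F.t ω| ≤ 1 / 2 ^ ⌊u₂ * J⌋₊ → |b (some (c 0)) - F.x ω (c 0)| ≤ 1 / 2 ^ ⌊u₂ * J⌋₊ →
        |b (some (c 1)) - eval b (G 0 (ptr F J ω) 1)| ≤ 2 / 2 ^ gm 1 →
        |eval b (cpl (c 0) (c 0) (φ' (ptr F J ω)) - G 0 (ptr F J ω) 2)| ≤ M := ⟨_, rfl⟩
  rw [← hQ] at kq
  obtain ⟨B', hB'⟩ : ∃ B' : F.Ω → Prop, B' = fun ω => B ω ∧ ¬ Q ω := ⟨_, rfl⟩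
  have hB'B : Sub B' B := fun ω hω => by
    rw [hB'] at hω
    exact hω.1
  have hhalf : 1 / 2 * Pe F.p B ≤ Pe F.p B' := by
    rw [hB']
    exact pe_left hB0 kq hη1
  have hB'0 : 0 < Pe F.p B' := by linarith
  have hbox : ∀ ω, B' ω → ∀ b : Option (Fin m) → ℝ,
        |b none - F.t ω| ≤ 1 / 2 ^ ⌊u₂ * J⌋₊ → |b (some (c 0)) - F.x ω (c 0)| ≤ 1 / 2 ^ ⌊u₂ * J⌋₊ →
        |b (some (c 1)) - eval b (G 0 (ptr F J ω) 1)| ≤ 2 / 2 ^ gm 1 →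
        |eval b (g2 (ptr F J ω) - G 0 (ptr F J ω) 2)| ≤ M := by
    intro ω hω
    rw [hB', hQ] at hω
    rw [hg2]
    exact not_not.1 hω.2
  -- the numbers
  have hM0 : 0 ≤ M := by
    rw [hM]
    positivity
  obtain ⟨e, he⟩ : ∃ e, e = gm 2 - M₂ := ⟨_, rfl⟩
  have he2 : e ≤ gm 2 := by omega
  have heφ : (e : ℝ) ≤ φ * J + 1 := by
    have g1 := hL.hi 2 (by norm_num)
    have g2 : p 2 * J - 1 < ⌊p 2 * J⌋₊ := Nat.sub_one_lt_floor _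
    have g3 : (⌊p 2 * J⌋₊ : ℝ) ≤ M₂ := by exact_mod_cast hM₂p
    have g4 : (s 2 - φ) * J ≤ p 2 * J := mul_le_mul_of_nonneg_right h2 hJ0
    rcases Nat.lt_or_ge (gm 2) M₂ with g5 | g5
    · have : e = 0 := by omega
      rw [this]
      push_cast
      have := mul_nonneg hφ hJ0
      linarith
    · have : (e : ℝ) = gm 2 - M₂ := by
        rw [he, Nat.cast_sub g5]
      rw [this]
      linarith
  obtain ⟨d, hd⟩ : ∃ d, d = ⌊(σ / 8 + φ) * J⌋₊ + 2 := ⟨_, rfl⟩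
  have hdf : (⌊(σ / 8 + φ) * J⌋₊ : ℝ) ≤ (σ / 8 + φ) * J := Nat.floor_le (by positivity)
  have hdf' : (σ / 8 + φ) * J - 1 < ⌊(σ / 8 + φ) * J⌋₊ := Nat.sub_one_lt_floor _
  have hd1 : (d : ℝ) ≤ (σ / 8 + φ) * J + 2 := by
    rw [hd]
    push_cast
    linarith
  have hd2 : (σ / 8 + φ) * J + 1 ≤ d := by
    rw [hd]
    push_cast
    linarith
  have hud : ⌊u₂ * J⌋₊ ≤ gm 0 + d := by
    have g1 : (⌊u₂ * J⌋₊ : ℝ) ≤ u₂ * J := Nat.floor_le (mul_nonneg (by linarith) hJ0)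
    have g2 : u₂ * J ≤ (w + σ / 8) * J := mul_le_mul_of_nonneg_right hu3 hJ0
    have g3 : p 0 * J - 1 < ⌊p 0 * J⌋₊ := Nat.sub_one_lt_floor _
    have g4 : (⌊p 0 * J⌋₊ : ℝ) ≤ gm 0 := by exact_mod_cast hL.lo 0 (by norm_num)
    have g5 : (w - φ) * J ≤ p 0 * J := mul_le_mul_of_nonneg_right h0 hJ0
    have g6 : (⌊u₂ * J⌋₊ : ℝ) ≤ ((gm 0 + d : ℕ) : ℝ) := by
      push_cast
      linarith
    exact_mod_cast g6
  -- the digits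
  have dig : ∀ {q ξ : ℝ}, 0 ≤ ξ → ξ + σ ≤ q → ∃ D : ℕ, ⌊(q - σ) * J⌋₊ + D = ⌊q * J⌋₊ ∧
      σ * J - 1 ≤ D ∧ (D : ℝ) ≤ σ * J + 1 ∧ ⌊ξ * J⌋₊ + 6 + 2 * d ≤ ⌊q * J⌋₊ := by
    intro q ξ hξ hξq
    have g0 : 0 ≤ (q - σ) * J := mul_nonneg (by linarith) hJ0
    have g1 : (⌊(q - σ) * J⌋₊ : ℝ) ≤ (q - σ) * J := Nat.floor_le g0
    have g2 : (q - σ) * J - 1 < ⌊(q - σ) * J⌋₊ := Nat.sub_one_lt_floor _
    have g3 : q * J - 1 < ⌊q * J⌋₊ := Nat.sub_one_lt_floor _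
    have g4 : (⌊q * J⌋₊ : ℝ) ≤ q * J := Nat.floor_le (mul_nonneg (by linarith) hJ0)
    have g5 : ⌊(q - σ) * J⌋₊ ≤ ⌊q * J⌋₊ := Nat.floor_le_floor
      (mul_le_mul_of_nonneg_right (by linarith) hJ0)
    refine ⟨⌊q * J⌋₊ - ⌊(q - σ) * J⌋₊, by omega, ?_, ?_, ?_⟩
    · rw [Nat.cast_sub g5]
      nlinarith
    · rw [Nat.cast_sub g5]
      nlinarith
    · have g6 : (⌊ξ * J⌋₊ : ℝ) ≤ ξ * J := Nat.floor_le (mul_nonneg hξ hJ0)
      have g7 : (ξ + σ) * J ≤ q * J := mul_le_mul_of_nonneg_right hξq hJ0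
      have g8 : 8 * φ * J ≤ σ * J := mul_le_mul_of_nonneg_right hφ8 hJ0
      have g9 : ((⌊ξ * J⌋₊ + 6 + 2 * d : ℕ) : ℝ) ≤ ⌊q * J⌋₊ := by
        push_cast
        nlinarith
      exact_mod_cast g9
  obtain ⟨D, hD1, hD2, hD3, hD4⟩ := dig hξ hξq
  obtain ⟨D', hD1', hD2', hD3', hD4'⟩ := dig hξ' hξq'
  obtain ⟨Λ, hΛ⟩ : ∃ Λ : ℝ, Λ = C * M * 2 ^ gm 2 * 2 ^ d := ⟨_, rfl⟩
  have hΛ0 : 0 ≤ Λ := by
    rw [hΛ]
    positivity
  have hΛD : 4 * 2 ^ e + 9 * Λ ≤ 4 * (2 : ℝ) ^ D := by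
    rw [hΛ, hM]
    exact lam_num hφ hK0 hφσ hC0 hJ0 hT heφ hd1 (by omega) hD2
  have hΛD' : 4 * 2 ^ e + 9 * Λ ≤ 4 * (2 : ℝ) ^ D' := by
    rw [hΛ, hM]
    exact lam_num hφ hK0 hφσ hC0 hJ0 hT heφ hd1 (by omega) hD2'
  -- the swapped data
  have hdeg : ∀ ω, B' ω → (G 0 (ptr F J ω) 1).totalDegree ≤ K ∧
      (g2 (ptr F J ω) - G 0 (ptr F J ω) 2).totalDegree ≤ K := by
    intro ω hω
    have g1 := hL.cls ω (hB'B ω hω)
    refine ⟨by rw [g1 1 (by norm_num)]; exact hL.deg _ _, (totalDegree_sub _ _).trans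
      (max_le ?_ ?_)⟩
    · rw [hg2]
      exact (deg_afq _ _ _ _ _ _).trans hK
    · rw [g1 2 (by norm_num)]
      exact hL.deg _ _
  have hc2 : Set.InjOn c (Set.Iio 2) := hc.mono fun z hz => by
    rw [Set.mem_Iio] at hz ⊢
    omega
  have hc3 : Set.InjOn c (Set.Iio 3) := hc.mono fun z hz => by
    rw [Set.mem_Iio] at hz ⊢
    omega
  have hpos1 : ∀ ω, B' ω → |hgt F c (G 0) ω 1| ≤ 1 / 2 ^ gm 1 := fun ω hω =>
    hL.pos ω (hB'B ω hω) 1 (by norm_num)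
  obtain ⟨n1, n2⟩ := n12_box (X := ⌊ξ * J⌋₊) hC0 hBN hc2 hdep hg2d hM0 hdeg hpos1 hbox hud hD4
    (le_of_eq hΛ.symm)
  obtain ⟨-, n2'⟩ := n12_box (X := ⌊ξ' * J⌋₊) hC0 hBN hc2 hdep hg2d hM0 hdeg hpos1 hbox hud hD4'
    (le_of_eq hΛ.symm)
  rw [← hD1] at n2
  rw [← hD1'] at n2'
  have s1 := grdE_sw hc3 hdep hg2d he2 (grdE_sub hG hB'B) hΛ0 hΛD n1 n2
  have s2 := grdE_sw hc3 hdep hg2d he2 (grdE_sub hG' hB'B) hΛ0 hΛD' n1 n2'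
  rw [hD1] at s1
  rw [hD1'] at s2
  have hU0 := hG.U0
  obtain ⟨U', hU'⟩ : ∃ U' : ℝ, U' = 2 ^ (max D D' + 1) * U := ⟨_, rfl⟩
  have s1' := grdE_up (U' := U') s1 (by
    rw [hU']
    exact mul_le_mul_of_nonneg_right (pow_le_pow_right₀ (by norm_num) (by omega)) hU0)
  have s2' := grdE_up (U' := U') s2 (by
    rw [hU']
    exact mul_le_mul_of_nonneg_right (pow_le_pow_right₀ (by norm_num) (by omega)) hU0)
  have hLs := lbsE_sw (hL.sub hB'B) hK hwJ hJ4n (ha.sub hB'B) (fun ω hω => hφ' ω (hB'B ω hω)) hM₂p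
  rw [← he] at hLs
  have hg2' : (fun y => cpl (c 0) (c 0) (φ' y)) = g2 := hg2.symm
  rw [hg2'] at hLs
  have fl : ∀ {z : ℝ}, w ≤ z → ⌊w * J⌋₊ ≤ ⌊z * J⌋₊ := fun {z} hz =>
    Nat.floor_le_floor (mul_le_mul_of_nonneg_right hz hJ0)
  have hnn' : ∀ ω, B' ω → |gnh F (fun l => c (sw 1 l)) 3 (swM gm e) (swG G g2 0)
      (swG G g2 (nn + 1)) ω 2 - gnh F (fun l => c (sw 1 l)) 3 (swM gm e) (swG G g2 0)
      (swG G g2 (nn' + 1)) ω 2| ≤ U' / 2 ^ ⌊ξ * J⌋₊ := by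
    intro ω hω
    obtain ⟨-, -, g3⟩ := gnh_all hc3 hdep hg2d (n := nn) he2 ω
    obtain ⟨-, -, g3'⟩ := gnh_all hc3 hdep hg2d (n := nn') he2 ω
    rw [g3, g3']
    have f1 := hnn ω (hB'B ω hω) 1 (by norm_num) (by norm_num)
    have f2 := hnn ω (hB'B ω hω) 2 (by norm_num) (by norm_num)
    have f3 := n1 ω hω 1 (by norm_num)
    obtain ⟨ν, hν⟩ : ∃ ν : ℝ, ν = 2 ^ gm 2 / 2 ^ gm 1 * nc2 F c G g2 ω 1 := ⟨_, rfl⟩
    have f4 : |ν| ≤ Λ := by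
      rw [hν, abs_mul, abs_of_pos (by positivity)]
      exact f3
    rw [← hν]
    have e1 : gnh F c 3 gm (G 0) (G nn) ω 1 + ν * gnh F c 3 gm (G 0) (G nn) ω 2 -
        (gnh F c 3 gm (G 0) (G nn') ω 1 + ν * gnh F c 3 gm (G 0) (G nn') ω 2) =
        (gnh F c 3 gm (G 0) (G nn) ω 1 - gnh F c 3 gm (G 0) (G nn') ω 1) +
        ν * (gnh F c 3 gm (G 0) (G nn) ω 2 - gnh F c 3 gm (G 0) (G nn') ω 2) := by ring
    rw [e1]
    refine (abs_add_le _ _).trans ?_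
    rw [abs_mul]
    have f5 : |ν| * |gnh F c 3 gm (G 0) (G nn) ω 2 - gnh F c 3 gm (G 0) (G nn') ω 2| ≤
        Λ * (U / 2 ^ ⌊ξ * J⌋₊) := mul_le_mul f4 f2 (abs_nonneg _) hΛ0
    have f6 : 0 ≤ U / 2 ^ ⌊ξ * J⌋₊ := by positivity
    have f7 : 1 + Λ ≤ 2 ^ (max D D' + 1) := by
      have g1 : (1 : ℝ) ≤ 2 ^ e := one_le_pow₀ (by norm_num)
      have g2 : (2 : ℝ) ^ D ≤ 2 ^ (max D D' + 1) := pow_le_pow_right₀ (by norm_num) (by omega)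
      linarith
    have f8 := mul_le_mul_of_nonneg_right f7 f6
    have e2 : U' / 2 ^ ⌊ξ * J⌋₊ = 2 ^ (max D D' + 1) * (U / 2 ^ ⌊ξ * J⌋₊) := by
      rw [hU']
      ring
    rw [e2]
    linarith
  have hUU : U' ≤ 2 ^ (μ / 2 * J) := by
    have g1 : ((max D D' + 1 : ℕ) : ℝ) ≤ σ * J + 2 := by
      push_cast
      have : max (D : ℝ) D' ≤ σ * J + 1 := max_le hD3 hD3'
      linarith
    rw [hU']
    calc (2 : ℝ) ^ (max D D' + 1) * U ≤ 2 ^ (σ * J + 2) * 2 ^ ((μ / 2 - 2 * σ) * J) :=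
          mul_le_mul (pow_le_r g1) hU hU0 (by positivity)
      _ = 2 ^ (σ * J + 2 + (μ / 2 - 2 * σ) * J) := (Real.rpow_add (by norm_num) _ _).symm
      _ ≤ 2 ^ (μ / 2 * J) := by
          refine Real.rpow_le_rpow_of_exponent_le (by norm_num) ?_
          nlinarith
  obtain ⟨W, w1, w2, mu', m1, m2, m3⟩ := k3 B' hB'B hhalf (ks' + 1) (nn' + 1) (ks + 1) (nn + 1)
    (swM gm e) (swG G g2) _ U' hLs (clU_sw hLs.cls (fl hwj') (clU_sub hcj' hB'B))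
    (clU_sw hLs.cls (fl hwx') (clU_sub hcx' hB'B)) (by omega)
    (clU_sw hLs.cls (fl hwj) (clU_sub hcj hB'B)) (clU_sw hLs.cls (fl hwx) (clU_sub hcx hB'B))
    (by omega) s2' s1' hnn' hUU
  refine ⟨W, w1, w2, fun z => Polynomial.C (1 / 2 ^ e) * mu' z, fun z => ?_, fun z u => ?_, ?_⟩
  · exact (Polynomial.natDegree_C_mul_le _ _).trans (m1 z)
  · rw [Polynomial.eval_mul, Polynomial.eval_C, abs_mul, abs_of_pos (by positivity)]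
    have g1 : (1 : ℝ) / 2 ^ e ≤ 1 := by
      rw [div_le_one (by positivity)]
      exact one_le_pow₀ (by norm_num)
    exact (mul_le_of_le_one_left (abs_nonneg _) g1).trans (m2 z u)
  · have g1 : Pb (Pool.Agent.H49.Ent.cond F.p B' True) (fun ω => (2 : ℝ) ^ (-(κ₂ * ⌊ξ * J⌋₊)) <
        |gnh F c 3 gm (G 0) (G nn) ω 2 - (Polynomial.C (1 / 2 ^ e) *
          mu' (slam F W ω)).eval (rt F W ω)|) ≤ ε / 2 := by
      refine le_trans (Pool.GRD.Pb_mono_pos (fun ω => (isLaw_cond F.isLaw hB'0).nonneg ω)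
        fun ω _ hω => ?_) m3
      obtain ⟨-, f2, -⟩ := gnh_all hc3 hdep hg2d (n := nn) he2 ω
      show (2 : ℝ) ^ (-(κ₂ * ⌊ξ * J⌋₊)) < |gnh F (fun l => c (sw 1 l)) 3 (swM gm e)
        (swG G g2 0) (swG G g2 (nn + 1)) ω 1 - (mu' (slam F W ω)).eval (rt F W ω)|
      rw [f2]
      refine lt_of_lt_of_le hω ?_
      rw [Polynomial.eval_mul, Polynomial.eval_C]
      have e1 : 2 ^ e * gnh F c 3 gm (G 0) (G nn) ω 2 - (mu' (slam F W ω)).eval (rt F W ω) =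
          2 ^ e * (gnh F c 3 gm (G 0) (G nn) ω 2 -
            1 / 2 ^ e * (mu' (slam F W ω)).eval (rt F W ω)) := by
        field_simp
      rw [e1, abs_mul, abs_of_pos (by positivity : (0 : ℝ) < 2 ^ e)]
      exact le_mul_of_one_le_left (abs_nonneg _) (one_le_pow₀ (by norm_num))
    rw [hB'] at g1 hB'0
    have g2' := pb_split F.isLaw hB0 hB'0 kq g1
    linarith

end Pool.TSW66
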