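import Pool.Agent.H66.TSW.Cgt
import Pool.Agent.H31.AVN.Csq
import Pool.Agent.H3.SWP.Swp

/-!
# The closed gradient of the place two with a deep spectator, as a property of the windows

`CgtQ`: at the window `g`, in all small boxes A (scale `R'`) and B (scale `R`), the gradient of the
target `3` in the direction of the place `2` is closed; the place `1` is a spectator. The slopes of the
swapped list satisfy `Φ`. `σ`: the loss of the change of the frame.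
-/

set_option autoImplicit false

namespace Pool.TSW66

open Finset Real MvPolynomial MeasureTheory Filter Topology
open Pool.Agent.H49.Ent Pool.Agent.H32.Dense Pool.STK Pool.KA Pool.KSAT Pool.K2S Pool.PB Pool.S6C
open Pool.GEN Pool.CHT Pool.CHX Pool.ISO Pool.RCD Pool.LA91 Pool.AVG96 Pool.AVG50 Pool.CDX
open Pool.PKG Pool.AVG57
open Pool.SWP (sw)

/-- **The closed gradient of the target `3` in the direction of the place `2` in all small boxes near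
the window** `g`, with the spectator `1`. `p.1`: the degree of the labels; `p.2`: the bound of the
numbers of the box A (scale `R'`, first step); `N`: the bound of the numbers of the box B (scale
`R`). -/
def CgtQ (Φ : (ℕ → ℝ) → Prop) (C₁ : (ℕ → ℝ) → ℝ) (h εg : ℝ) (cs cs' : ℕ → Cst) {n : ℕ}
    (p : ℕ × ℕ) (k₁ : ℕ)
    (S : PCl n) (_ : List (Fin n) × Fin n → ℝ → ℝ → ℝ) (_ : ℝ) (c : ℕ → Fin n)
    (_ : ℝ → ℝ → ℝ) (r : ℝ → ℝ) (L _ : ℕ → ℝ → ℝ → ℝ) (_ : ℕ → Kg) (G : Set ℝ) (g : ℝ) : Prop :=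
  1 ≤ p.1 → ∀ N : ℕ, ∃ k₀ : ℕ, ∀ Sl : ℕ → ℝ,
    (∀ l, 1 ≤ l → l ≤ 3 → HasDerivAt (fun w => L l w w) (Sl l) g) → Φ (fun l => Sl (sw 1 l)) →
    (∀ l, 1 ≤ l → l ≤ 3 → 1 < Sl l) → ∀ R : ℝ, 0 < R → R < (1 / 2) ^ k₀ →
    RowR r (L 3 g g) h R ((1 / 2) ^ k₀ * R) →
    LbR S c 1 p.1 (fun w l => L l w w) G g (2 ^ k₀ * R) (2 ^ k₀ * R) ((1 / 2) ^ k₀ * R) 3 →
    ∀ w ∈ G, ∀ R' j' x' j x : ℝ, R' ≤ R → R ≤ (N + 1) * R' → |w - g| ≤ R' → |j' - g| ≤ R' →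
      |x' - g| ≤ R' → |j - g| ≤ R → |x - g| ≤ R →
      ∀ (δW q' ξ' μ' ν' q ξ μ ν φ σ : ℝ) (pl sl : ℕ → ℝ),
      Bx2 (fun w l => L l w w) 1 2 Sl w j' x' δW q' ξ' μ' ν' φ ((p.2 + 1) * R') pl sl →
      Bx2 (fun w l => L l w w) 1 2 Sl w j x δW q ξ μ ν φ ((N + 1) * R) pl sl →
      w - φ ≤ pl 0 → φ ≤ (1 / 2) ^ k₀ * R → R' / (p.2 + 1) ≤ ξ' → R' / (p.2 + 1) ≤ ν' →
      μ' ≤ (cs' p.1).θ * ξ' → ν' ≤ (cs' p.1).θ * ξ' → (cs' p.1).θ * ξ' + ν' ≤ q' →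
      R / (N + 1) ≤ ξ → R / (N + 1) ≤ ν → μ ≤ (cs p.1).θ * ξ → ν ≤ (cs p.1).θ * ξ →
      (cs p.1).θ * ξ + ν ≤ q → 2 ^ k₁ * R' ≤ q → q' + ξ' + μ' < q → q' + ξ' + ν ≤ q →
      ξ < (cs' p.1).κ * ξ' → μ ≤ μ' →
      (∀ l, 1 ≤ l → l ≤ 2 → Sl l * (x - w) + C₁ (fun l => Sl (sw 1 l)) * (ξ + μ + ν) ≤ q) →
      R / (N + 1) ≤ σ → σ ≤ μ → ξ + σ ≤ q → ξ' + σ ≤ q' →
      CGt S c p.1 w δW j' x' j x pl sl q' ξ' q ξ μ σ (cs p.1).κ (cs p.1).ι (cs p.1).k εg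

end Pool.TSW66
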