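import Pool.Agent.H66.TSW.Lsw

/-!
# The natural components of the difference of the two charts, from a box

`BoxN`: the natural components of a polynomial which is bounded on a box. `n12_box`: the hypotheses of
`grdE_sw` from a bound of the difference of the two charts on boxes around the samples.
-/

set_option autoImplicit false

namespace Pool.TSW66

open Finset Real MvPolynomial
open Pool.Agent.H49.Ent Pool.Agent.H32.Dense Pool.STK Pool.KA Pool.KSAT Pool.K2S Pool.PB Pool.S6C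
open Pool.GEN Pool.CHT Pool.CHX Pool.ISO Pool.D2R Pool.LA91
open Pool.SWP (sw)

/-- The natural components of a polynomial which is bounded on a box. -/
def BoxN (K : ℕ) (C : ℝ) : Prop := ∀ {m : ℕ} {c : ℕ → Fin m}
    {ψ : ℕ → MvPolynomial (Option (Fin m)) ℝ} {P : MvPolynomial (Option (Fin m)) ℝ}
    {u g n : ℕ} {M : ℝ} {x y : Option (Fin m) → ℝ}, Set.InjOn c (Set.Iio 2) →
    DepC c 0 (ψ 0) → DepC c 1 (ψ 1) → (ψ 1).totalDegree ≤ K → DepC c 2 P → P.totalDegree ≤ K →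
    4 ≤ n → 0 ≤ M → (∀ b : Option (Fin m) → ℝ, |b none - x none| ≤ 1 / 2 ^ u →
      |b (some (c 0)) - x (some (c 0))| ≤ 1 / 2 ^ u →
      |b (some (c 1)) - eval b (ψ 1)| ≤ 2 / 2 ^ g → |eval b P| ≤ M) →
    |x (some (c 1)) - eval x (ψ 1)| ≤ 1 / 2 ^ g → y none = x none →
    |y (some (c 0)) - x (some (c 0))| ≤ 1 / 2 ^ (u + n) →
    |(y (some (c 1)) - eval y (ψ 1)) - (x (some (c 1)) - eval x (ψ 1))| ≤ 1 / 2 ^ (g + n) →
    |ncp c 2 ψ P x 0| ≤ C * M * 2 ^ u ∧ |ncp c 2 ψ P x 1| ≤ C * M * 2 ^ g ∧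
    |ncp c 2 ψ P x 0 - ncp c 2 ψ P y 0| ≤ C * M * 2 ^ u / 2 ^ n ∧
    |ncp c 2 ψ P x 1 - ncp c 2 ψ P y 1| ≤ C * M * 2 ^ g / 2 ^ n ∧
    |eval y P - eval x P - (ncp c 2 ψ P x 0 * (y (some (c 0)) - x (some (c 0))) +
      ncp c 2 ψ P x 1 * ((y (some (c 1)) - eval y (ψ 1)) - (x (some (c 1)) - eval x (ψ 1))))| ≤
      C * M / (2 ^ n) ^ 2

variable {m J : ℕ}

/-- **The components of the difference of the two charts.** -/
theorem n12_box {K : ℕ} {C : ℝ} (hC : 0 ≤ C) (hBN : BoxN K C) {F : Fam m J} {c : ℕ → Fin m}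
    (hc : Set.InjOn c (Set.Iio 2)) {G : ℕ → PtT F → ℕ → MvPolynomial (Option (Fin m)) ℝ}
    {g2 : PtT F → MvPolynomial (Option (Fin m)) ℝ} (hdep : ∀ k a l, DepC c l (G k a l))
    (hg2 : ∀ a, DepC c 1 (g2 a)) {B : F.Ω → Prop} {gm : ℕ → ℕ} {u d q X : ℕ} {M Λ : ℝ}
    (hM : 0 ≤ M) (hdeg : ∀ ω, B ω → (G 0 (ptr F J ω) 1).totalDegree ≤ K ∧
      (g2 (ptr F J ω) - G 0 (ptr F J ω) 2).totalDegree ≤ K)
    (hpos : ∀ ω, B ω → |hgt F c (G 0) ω 1| ≤ 1 / 2 ^ gm 1)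
    (hbox : ∀ ω, B ω → ∀ b : Option (Fin m) → ℝ, |b none - F.t ω| ≤ 1 / 2 ^ u →
      |b (some (c 0)) - F.x ω (c 0)| ≤ 1 / 2 ^ u →
      |b (some (c 1)) - eval b (G 0 (ptr F J ω) 1)| ≤ 2 / 2 ^ gm 1 →
      |eval b (g2 (ptr F J ω) - G 0 (ptr F J ω) 2)| ≤ M)
    (hud : u ≤ gm 0 + d) (hq : X + 6 + 2 * d ≤ q) (hΛ : C * M * 2 ^ gm 2 * 2 ^ d ≤ Λ) :
    (∀ ω, B ω → ∀ j < 2, 2 ^ gm 2 / 2 ^ gm j * |nc2 F c G g2 ω j| ≤ Λ) ∧
    ∀ ω ν, B ω → B ν → F.t ω = F.t ν →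
      (∀ j < 2, |hgt F c (G 0) ω j - hgt F c (G 0) ν j| ≤ 2 ^ 2 / 2 ^ (gm j + q)) →
      (∀ l ≤ 2, G 0 (ptr F J ω) l = G 0 (ptr F J ν) l) → g2 (ptr F J ω) = g2 (ptr F J ν) →
      (∀ j < 2, 2 ^ gm 2 / 2 ^ gm j * |nc2 F c G g2 ω j - nc2 F c G g2 ν j| ≤ Λ / 2 ^ X) ∧
      2 ^ (gm 2 + q) * |(dP F G g2 ω ω - dP F G g2 ν ν) - ∑ j ∈ range 2,
        nc2 F c G g2 ω j * (hgt F c (G 0) ω j - hgt F c (G 0) ν j)| ≤ Λ / 2 ^ X := by
  obtain ⟨n, hn⟩ : ∃ n, n = q - 2 - d := ⟨_, rfl⟩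
  have hCM : 0 ≤ C * M := mul_nonneg hC hM
  have hΛ0 : 0 ≤ Λ := le_trans (by positivity) hΛ
  have h1d : (1 : ℝ) ≤ 2 ^ d := one_le_pow₀ (by norm_num)
  have hbase : C * M * 2 ^ gm 2 ≤ Λ := by
    refine le_trans ?_ hΛ
    exact le_mul_of_one_le_right (by positivity) h1d
  have hP : ∀ a : PtT F, DepC c 2 (g2 a - G 0 a 2) := fun a b b' g0 g1 => by
    rw [map_sub, map_sub, depC_up (by norm_num) (hg2 a) b b' g0 g1, hdep 0 a 2 b b' g0 g1]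
  have hu2 : (2 : ℝ) ^ u ≤ 2 ^ gm 0 * 2 ^ d := by
    rw [← pow_add]
    exact pow_le_pow_right₀ (by norm_num) hud
  have sc0 : ∀ y : ℝ, 0 ≤ y → C * M * 2 ^ u * y * (2 ^ gm 2 / 2 ^ gm 0) ≤ Λ * y := by
    intro y hy
    have e1 : C * M * 2 ^ u * y * (2 ^ gm 2 / 2 ^ gm 0) =
        (C * M * 2 ^ gm 2 * y / 2 ^ gm 0) * 2 ^ u := by
      field_simp
    rw [e1]
    have e2 : (C * M * 2 ^ gm 2 * y / 2 ^ gm 0) * 2 ^ u ≤
        (C * M * 2 ^ gm 2 * y / 2 ^ gm 0) * (2 ^ gm 0 * 2 ^ d) :=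
      mul_le_mul_of_nonneg_left hu2 (by positivity)
    refine e2.trans ?_
    have e3 : (C * M * 2 ^ gm 2 * y / 2 ^ gm 0) * (2 ^ gm 0 * 2 ^ d) =
        C * M * 2 ^ gm 2 * 2 ^ d * y := by
      field_simp
    rw [e3]
    exact mul_le_mul_of_nonneg_right hΛ hy
  have sc1 : ∀ y : ℝ, 0 ≤ y → C * M * 2 ^ gm 1 * y * (2 ^ gm 2 / 2 ^ gm 1) ≤ Λ * y := by
    intro y hy
    have e1 : C * M * 2 ^ gm 1 * y * (2 ^ gm 2 / 2 ^ gm 1) = C * M * 2 ^ gm 2 * y := by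
      field_simp
    rw [e1]
    exact mul_le_mul_of_nonneg_right hbase hy
  have get : ∀ ω ν : F.Ω, B ω → F.t ω = F.t ν →
      (∀ j < 2, |hgt F c (G 0) ω j - hgt F c (G 0) ν j| ≤ 2 ^ 2 / 2 ^ (gm j + q)) →
      (∀ l ≤ 2, G 0 (ptr F J ω) l = G 0 (ptr F J ν) l) → g2 (ptr F J ω) = g2 (ptr F J ν) →
      |nc2 F c G g2 ω 0| ≤ C * M * 2 ^ u ∧ |nc2 F c G g2 ω 1| ≤ C * M * 2 ^ gm 1 ∧
      |nc2 F c G g2 ω 0 - nc2 F c G g2 ν 0| ≤ C * M * 2 ^ u / 2 ^ n ∧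
      |nc2 F c G g2 ω 1 - nc2 F c G g2 ν 1| ≤ C * M * 2 ^ gm 1 / 2 ^ n ∧
      |(dP F G g2 ω ω - dP F G g2 ν ν) - ∑ j ∈ range 2,
        nc2 F c G g2 ω j * (hgt F c (G 0) ω j - hgt F c (G 0) ν j)| ≤ C * M / (2 ^ n) ^ 2 := by
    intro ω ν hω ht hh hg hg'
    have e0 : ∀ θ : F.Ω, (fun o => bt F θ o) none = F.t θ := fun θ => rfl
    have hx0 : eval (bt F ω) (G 0 (ptr F J ω) 0) = eval (bt F ν) (G 0 (ptr F J ν) 0) := by
      rw [hg 0 (by norm_num)]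
      exact hdep 0 _ 0 _ _ (show bt F ω none = bt F ν none from ht)
        fun l hl => absurd hl (Nat.not_lt_zero l)
    have d0 := hh 0 (by norm_num)
    have d1 := hh 1 (by norm_num)
    have e1 : hgt F c (G 0) ω 0 - hgt F c (G 0) ν 0 = -(F.x ν (c 0) - F.x ω (c 0)) := by
      unfold hgt
      rw [hx0]
      ring
    have e2 : hgt F c (G 0) ω 1 - hgt F c (G 0) ν 1 =
        -((F.x ν (c 1) - eval (bt F ν) (G 0 (ptr F J ω) 1)) -
          (F.x ω (c 1) - eval (bt F ω) (G 0 (ptr F J ω) 1))) := by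
      unfold hgt
      rw [← hg 1 (by norm_num)]
      ring
    have p4 : ∀ a b : ℕ, b + 2 ≤ a → (2 : ℝ) ^ 2 / 2 ^ a ≤ 1 / 2 ^ b := by
      intro a b hab
      rw [div_le_div_iff₀ (by positivity) (by positivity), one_mul, ← pow_add]
      exact pow_le_pow_right₀ (by norm_num) (by omega)
    obtain ⟨k1, k2, k3, k4, k5⟩ := hBN (c := c) (ψ := G 0 (ptr F J ω))
      (P := g2 (ptr F J ω) - G 0 (ptr F J ω) 2) (u := u) (g := gm 1) (n := n) (M := M)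
      (x := bt F ω) (y := bt F ν) hc (hdep 0 _ 0) (hdep 0 _ 1) (hdeg ω hω).1 (hP _)
      (hdeg ω hω).2 (by omega) hM (hbox ω hω) (hpos ω hω) ht.symm (by
        show |F.x ν (c 0) - F.x ω (c 0)| ≤ _
        rw [e1, abs_neg] at d0
        exact d0.trans (p4 _ _ (by omega))) (by
        show |(F.x ν (c 1) - eval (bt F ν) (G 0 (ptr F J ω) 1)) -
          (F.x ω (c 1) - eval (bt F ω) (G 0 (ptr F J ω) 1))| ≤ _
        rw [e2, abs_neg] at d1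
        exact d1.trans (p4 _ _ (by omega)))
    have e3 : ∀ j, ncp c 2 (G 0 (ptr F J ω)) (g2 (ptr F J ω) - G 0 (ptr F J ω) 2) (bt F ν) j =
        nc2 F c G g2 ν j := by
      intro j
      unfold nc2
      rw [hg', hg 2 le_rfl]
      exact ncp_charts (fun l hl => hg l (by omega)) _ _ _
    have e4 : ∀ j, ncp c 2 (G 0 (ptr F J ω)) (g2 (ptr F J ω) - G 0 (ptr F J ω) 2) (bt F ω) j =
        nc2 F c G g2 ω j := fun j => rfl
    rw [e3, e4] at k3 k4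
    rw [e4] at k1 k2
    refine ⟨k1, k2, k3, k4, ?_⟩
    rw [e4, e4] at k5
    rw [Finset.sum_range_succ, Finset.sum_range_one, e1, e2]
    have e5 : dP F G g2 ν ν = eval (bt F ν) (g2 (ptr F J ω) - G 0 (ptr F J ω) 2) := by
      unfold dP
      rw [hg', hg 2 le_rfl]
    have e6 : dP F G g2 ω ω = eval (bt F ω) (g2 (ptr F J ω) - G 0 (ptr F J ω) 2) := rfl
    rw [e5, e6, ← abs_neg]
    refine le_trans (le_of_eq ?_) k5
    congr 1
    show _ = eval (bt F ν) (g2 (ptr F J ω) - G 0 (ptr F J ω) 2) -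
      eval (bt F ω) (g2 (ptr F J ω) - G 0 (ptr F J ω) 2) -
      (nc2 F c G g2 ω 0 * (F.x ν (c 0) - F.x ω (c 0)) + nc2 F c G g2 ω 1 *
        ((F.x ν (c 1) - eval (bt F ν) (G 0 (ptr F J ω) 1)) -
          (F.x ω (c 1) - eval (bt F ω) (G 0 (ptr F J ω) 1))))
    ring
  refine ⟨fun ω hω j hj => ?_, fun ω ν hω hν ht hh hg hg' => ?_⟩
  · obtain ⟨k1, k2, -⟩ := get ω ω hω rfl (fun j _ => by
      rw [sub_self, abs_zero]
      positivity) (fun _ _ => rfl) rfl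
    interval_cases j
    · have h1 := sc0 1 zero_le_one
      rw [mul_one, mul_one] at h1
      refine le_trans ?_ h1
      rw [mul_comm]
      exact mul_le_mul_of_nonneg_right k1 (by positivity)
    · have h1 := sc1 1 zero_le_one
      rw [mul_one, mul_one] at h1
      refine le_trans ?_ h1
      rw [mul_comm]
      exact mul_le_mul_of_nonneg_right k2 (by positivity)
  · obtain ⟨-, -, k3, k4, k5⟩ := get ω ν hω ht hh hg hg'
    have hnX : (1 : ℝ) / 2 ^ n ≤ 1 / 2 ^ X := one_div_le_one_div_of_le (by positivity)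
      (pow_le_pow_right₀ (by norm_num) (by omega))
    refine ⟨fun j hj => ?_, ?_⟩
    · interval_cases j
      · have h1 := sc0 (1 / 2 ^ n) (by positivity)
        have h2 : Λ * (1 / 2 ^ n) ≤ Λ * (1 / 2 ^ X) := mul_le_mul_of_nonneg_left hnX hΛ0
        rw [mul_one_div Λ (2 ^ X)] at h2
        refine le_trans ?_ (h1.trans h2)
        rw [mul_comm]
        refine mul_le_mul_of_nonneg_right (k3.trans (le_of_eq ?_)) (by positivity)
        rw [mul_one_div]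
      · have h1 := sc1 (1 / 2 ^ n) (by positivity)
        have h2 : Λ * (1 / 2 ^ n) ≤ Λ * (1 / 2 ^ X) := mul_le_mul_of_nonneg_left hnX hΛ0
        rw [mul_one_div Λ (2 ^ X)] at h2
        refine le_trans ?_ (h1.trans h2)
        rw [mul_comm]
        refine mul_le_mul_of_nonneg_right (k4.trans (le_of_eq ?_)) (by positivity)
        rw [mul_one_div]
    · have h1 := mul_le_mul_of_nonneg_left k5 (show (0 : ℝ) ≤ 2 ^ (gm 2 + q) by positivity)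
      refine h1.trans ?_
      have e1 : (2 : ℝ) ^ (gm 2 + q) * (C * M / (2 ^ n) ^ 2) =
          C * M * 2 ^ gm 2 * (2 ^ q / 2 ^ (2 * n)) := by
        rw [← pow_mul, mul_comm n 2, pow_add]
        ring
      have e2 : (2 : ℝ) ^ q / 2 ^ (2 * n) ≤ 2 ^ d / 2 ^ X := by
        rw [div_le_div_iff₀ (by positivity) (by positivity), ← pow_add, ← pow_add]
        exact pow_le_pow_right₀ (by norm_num) (by omega)
      rw [e1]
      calc C * M * 2 ^ gm 2 * (2 ^ q / 2 ^ (2 * n)) ≤ C * M * 2 ^ gm 2 * (2 ^ d / 2 ^ X) :=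
            mul_le_mul_of_nonneg_left e2 (by positivity)
        _ = C * M * 2 ^ gm 2 * 2 ^ d / 2 ^ X := by ring
        _ ≤ Λ / 2 ^ X := div_le_div_of_nonneg_right hΛ (by positivity)

end Pool.TSW66
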