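import Pool.Agent.H23.D2.Grd3
import Pool.Agent.H3.SWP.Swp

/-!
# The natural components in the frame of the swapped list

`ncp_swp`: the places `1` and `2` are swapped; the chart of the place `2` is replaced by a chart over
the place `0` alone. `gnh_swp`: the relative gradient.
-/

set_option autoImplicit false

namespace Pool.TSW66

open Finset Real MvPolynomial
open Pool.Agent.H49.Ent Pool.Agent.H32.Dense Pool.STK Pool.KA Pool.KSAT Pool.K2S Pool.PB Pool.S6C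
open Pool.GEN Pool.CHT Pool.CHX Pool.ISO Pool.D2R
open Pool.SWP (sw sw_k sw_k1 sw_ne sw_lt sw_gt sw_sw sw_mem)

variable {m : ℕ}

theorem depC_up {c : ℕ → Fin m} {i j : ℕ} (hij : i ≤ j) {G : MvPolynomial (Option (Fin m)) ℝ}
    (h : DepC c i G) : DepC c j G := fun b b' h0 h1 => h b b' h0 fun l hl => h1 l (by omega)

theorem depC_sw {c : ℕ → Fin m} {k n : ℕ} (hn : n ≤ k ∨ k + 1 < n)
    {G : MvPolynomial (Option (Fin m)) ℝ} (h : DepC c n G) : DepC (fun l => c (sw k l)) n G := by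
  intro b b' h0 h1
  refine h b b' h0 fun l hl => ?_
  have h2 := h1 (sw k l) (sw_mem hn hl)
  beta_reduce at h2
  rwa [sw_sw] at h2

theorem inj_sw {c : ℕ → Fin m} {k n : ℕ} (hn : k + 1 < n) (hc : Set.InjOn c (Set.Iio n)) :
    Set.InjOn (fun l => c (sw k l)) (Set.Iio n) := by
  intro a ha b hb hab
  have h1 := hc (show sw k a ∈ Set.Iio n from sw_mem (Or.inr hn) ha)
    (show sw k b ∈ Set.Iio n from sw_mem (Or.inr hn) hb) hab
  rw [← sw_sw k a, h1, sw_sw]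

/-- **The natural components in the swapped frame.** -/
theorem ncp_swp {c : ℕ → Fin m} (hc : Set.InjOn c (Set.Iio 3))
    {ψ ψ' : ℕ → MvPolynomial (Option (Fin m)) ℝ} (hdep : ∀ l, DepC c l (ψ l))
    (hdep' : ∀ l, DepC (fun l => c (sw 1 l)) l (ψ' l)) (h1 : DepC c 1 (ψ' 1))
    (h0 : ψ' 0 = ψ 0) (h2 : ψ' 2 = ψ 1) {D : MvPolynomial (Option (Fin m)) ℝ} (hD : DepC c 3 D)
    (x : Option (Fin m) → ℝ) :
    ncp (fun l => c (sw 1 l)) 3 ψ' D x 0 = ncp c 3 ψ D x 0 +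
      ncp c 2 ψ (ψ' 1 - ψ 2) x 0 * ncp c 3 ψ D x 2 ∧
    ncp (fun l => c (sw 1 l)) 3 ψ' D x 1 = ncp c 3 ψ D x 2 ∧
    ncp (fun l => c (sw 1 l)) 3 ψ' D x 2 = ncp c 3 ψ D x 1 +
      ncp c 2 ψ (ψ' 1 - ψ 2) x 1 * ncp c 3 ψ D x 2 := by
  have hc' := inj_sw (k := 1) (by norm_num) hc
  have hD' : DepC (fun l => c (sw 1 l)) 3 D := depC_sw (Or.inr (by norm_num)) hD
  have hP : DepC c 2 (ψ' 1 - ψ 2) := fun b b' g0 g1 => by
    rw [map_sub, map_sub, depC_up (by norm_num) h1 b b' g0 g1, hdep 2 b b' g0 g1]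
  have key : ∀ j : ℕ, ncp (fun l => c (sw 1 l)) 3 ψ' D x j =
      ncp c 3 ψ D x 0 * (if 0 = j then 1 else 0) + ncp c 3 ψ D x 1 * (if 2 = j then 1 else 0) +
      ncp c 3 ψ D x 2 * ((if 1 = j then 1 else 0) +
        (ncp c 2 ψ (ψ' 1 - ψ 2) x 0 * (if 0 = j then 1 else 0) +
          ncp c 2 ψ (ψ' 1 - ψ 2) x 1 * (if 2 = j then 1 else 0))) := by
    intro j
    obtain ⟨W, hW0, hW⟩ := vec_adapt hc' hdep' x 0 (fun l => if l = j then 1 else 0) 3 le_rfl
    have w0 := hW 0 (by norm_num)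
    have w1 := hW 1 (by norm_num)
    have w2 := hW 2 (by norm_num)
    beta_reduce at w0 w1 w2
    rw [sw_lt (by norm_num : 0 < 1), h0] at w0
    rw [sw_k] at w1
    rw [show (2 : ℕ) = 1 + 1 from rfl, sw_k1, show (1 + 1 : ℕ) = 2 from rfl, h2] at w2
    rw [ncp_eq hdep' hD' hW0 (fun l hl => hW l hl), ncp_sum hc hdep hD hW0,
      Finset.sum_range_succ, Finset.sum_range_succ, Finset.sum_range_one, w0, w2]
    have e1 : W (some (c 2)) - dd (ψ 2) x W = (W (some (c 2)) - dd (ψ' 1) x W) +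
        dd (ψ' 1 - ψ 2) x W := by
      rw [dd_sub]
      ring
    have e2 : dd (ψ' 1 - ψ 2) x W = ncp c 2 ψ (ψ' 1 - ψ 2) x 0 * (if 0 = j then 1 else 0) +
        ncp c 2 ψ (ψ' 1 - ψ 2) x 1 * (if 2 = j then 1 else 0) := by
      rw [ncp_sum (hc.mono fun a ha => by
        rw [Set.mem_Iio] at ha ⊢
        omega) hdep hP hW0, Finset.sum_range_succ, Finset.sum_range_one, w0, w2]
    rw [e1, e2, w1]
  refine ⟨?_, ?_, ?_⟩
  · rw [key 0]
    norm_num
    ring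
  · rw [key 1]
    norm_num
  · rw [key 2]
    norm_num
    ring

end Pool.TSW66
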