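import Pool.Agent.H66.TSW.Frm

/-!
# The relative gradient in the frame of the swapped list

`swG`: the charts of the swapped list, `swM` its precisions. `gnh_sw0`, `gnh_sw1`, `gnh_sw2`: the
relative gradient. `grdE_sw`: the event of the gradient for the swapped list.
-/

set_option autoImplicit false

namespace Pool.TSW66

open Finset Real MvPolynomial
open Pool.Agent.H49.Ent Pool.Agent.H32.Dense Pool.STK Pool.KA Pool.KSAT Pool.K2S Pool.PB Pool.S6C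
open Pool.GEN Pool.CHT Pool.CHX Pool.ISO Pool.D2R
open Pool.SWP (sw sw_k sw_k1 sw_ne sw_lt sw_gt sw_sw sw_mem)

variable {m J : ℕ}

/-- **The charts of the swapped list**: `g2` is the chart of the coordinate of the place `2` over the
place `0` alone. -/
noncomputable def swG {F : Fam m J} (G : ℕ → PtT F → ℕ → MvPolynomial (Option (Fin m)) ℝ)
    (g2 : PtT F → MvPolynomial (Option (Fin m)) ℝ) :
    ℕ → PtT F → ℕ → MvPolynomial (Option (Fin m)) ℝ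
  | 0 => fun a l => if l = 1 then g2 a else G 0 a (sw 1 l)
  | k + 1 => fun a l => G k a (sw 1 l)

/-- The precisions of the swapped list. -/
def swM (gm : ℕ → ℕ) (e l : ℕ) : ℕ := if l = 1 then gm 2 - e else gm (sw 1 l)

theorem sw1_0 : sw 1 0 = 0 := sw_lt (by norm_num)

theorem sw1_1 : sw 1 1 = 2 := sw_k 1

theorem sw1_2 : sw 1 2 = 1 := sw_k1 1

theorem sw1_3 : sw 1 3 = 3 := sw_gt (by norm_num)

theorem swM0 (gm : ℕ → ℕ) (e : ℕ) : swM gm e 0 = gm 0 := by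
  unfold swM
  rw [if_neg (by norm_num), sw1_0]

theorem swM1 (gm : ℕ → ℕ) (e : ℕ) : swM gm e 1 = gm 2 - e := if_pos rfl

theorem swM2 (gm : ℕ → ℕ) (e : ℕ) : swM gm e 2 = gm 1 := by
  unfold swM
  rw [if_neg (by norm_num), sw1_2]

theorem swM3 (gm : ℕ → ℕ) (e : ℕ) : swM gm e 3 = gm 3 := by
  unfold swM
  rw [if_neg (by norm_num), sw1_3]

section

variable {F : Fam m J} {c : ℕ → Fin m} {G : ℕ → PtT F → ℕ → MvPolynomial (Option (Fin m)) ℝ}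
  {g2 : PtT F → MvPolynomial (Option (Fin m)) ℝ}

theorem swG_dep (hdep : ∀ a l, DepC c l (G 0 a l)) (hg2 : ∀ a, DepC c 1 (g2 a)) (a : PtT F)
    (l : ℕ) : DepC (fun l => c (sw 1 l)) l (swG G g2 0 a l) := by
  show DepC _ l (if l = 1 then g2 a else G 0 a (sw 1 l))
  split_ifs with h1
  · subst h1
    exact depC_sw (Or.inl le_rfl) (hg2 a)
  · rcases Nat.lt_or_ge l 3 with h3 | h3
    · interval_cases l
      · rw [sw1_0]
        exact depC_sw (Or.inl (by norm_num)) (hdep a 0)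
      · exact absurd rfl h1
      · rw [sw1_2]
        exact depC_up (by norm_num) (depC_sw (k := 1) (Or.inl le_rfl) (hdep a 1))
    · rw [sw_gt (by omega : 1 + 1 < l)]
      exact depC_sw (Or.inr (by omega)) (hdep a l)

/-- The natural components of the difference of the two charts of the place `2`. -/
noncomputable def nc2 (F : Fam m J) (c : ℕ → Fin m)
    (G : ℕ → PtT F → ℕ → MvPolynomial (Option (Fin m)) ℝ)
    (g2 : PtT F → MvPolynomial (Option (Fin m)) ℝ) (ω : F.Ω) (j : ℕ) : ℝ :=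
  ncp c 2 (G 0 (ptr F J ω)) (g2 (ptr F J ω) - G 0 (ptr F J ω) 2) (bt F ω) j

/-- The difference of the two charts of the place `2` at the point of the sample. -/
noncomputable def dP (F : Fam m J) (G : ℕ → PtT F → ℕ → MvPolynomial (Option (Fin m)) ℝ)
    (g2 : PtT F → MvPolynomial (Option (Fin m)) ℝ) (ω ν : F.Ω) : ℝ :=
  eval (bt F ω) (g2 (ptr F J ν) - G 0 (ptr F J ν) 2)

variable (hc : Set.InjOn c (Set.Iio 3)) (hdep : ∀ k a l, DepC c l (G k a l))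
  (hg2 : ∀ a, DepC c 1 (g2 a))

include hc hdep hg2

theorem gnh_all {gm : ℕ → ℕ} {e n : ℕ} (he : e ≤ gm 2) (ω : F.Ω) :
    gnh F (fun l => c (sw 1 l)) 3 (swM gm e) (swG G g2 0) (swG G g2 (n + 1)) ω 0 =
      gnh F c 3 gm (G 0) (G n) ω 0 +
        2 ^ gm 2 / 2 ^ gm 0 * nc2 F c G g2 ω 0 * gnh F c 3 gm (G 0) (G n) ω 2 ∧
    gnh F (fun l => c (sw 1 l)) 3 (swM gm e) (swG G g2 0) (swG G g2 (n + 1)) ω 1 =
      2 ^ e * gnh F c 3 gm (G 0) (G n) ω 2 ∧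
    gnh F (fun l => c (sw 1 l)) 3 (swM gm e) (swG G g2 0) (swG G g2 (n + 1)) ω 2 =
      gnh F c 3 gm (G 0) (G n) ω 1 +
        2 ^ gm 2 / 2 ^ gm 1 * nc2 F c G g2 ω 1 * gnh F c 3 gm (G 0) (G n) ω 2 := by
  have hD : DepC c 3 (G n (ptr F J ω) 3 - G 0 (ptr F J ω) 3) := fun b b' g0 g1 => by
    rw [map_sub, map_sub, hdep n _ 3 b b' g0 g1, hdep 0 _ 3 b b' g0 g1]
  have e0 : swG G g2 0 (ptr F J ω) 0 = G 0 (ptr F J ω) 0 := by
    show (if (0 : ℕ) = 1 then g2 (ptr F J ω) else G 0 (ptr F J ω) (sw 1 0)) = _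
    rw [if_neg (by norm_num), sw1_0]
  have e1 : swG G g2 0 (ptr F J ω) 1 = g2 (ptr F J ω) := by
    show (if (1 : ℕ) = 1 then g2 (ptr F J ω) else G 0 (ptr F J ω) (sw 1 1)) = _
    exact if_pos rfl
  have e2 : swG G g2 0 (ptr F J ω) 2 = G 0 (ptr F J ω) 1 := by
    show (if (2 : ℕ) = 1 then g2 (ptr F J ω) else G 0 (ptr F J ω) (sw 1 2)) = _
    rw [if_neg (by norm_num), sw1_2]
  have e3 : swG G g2 0 (ptr F J ω) 3 = G 0 (ptr F J ω) 3 := by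
    show (if (3 : ℕ) = 1 then g2 (ptr F J ω) else G 0 (ptr F J ω) (sw 1 3)) = _
    rw [if_neg (by norm_num), sw1_3]
  have en : swG G g2 (n + 1) (ptr F J ω) 3 = G n (ptr F J ω) 3 := by
    show G n (ptr F J ω) (sw 1 3) = _
    rw [sw1_3]
  obtain ⟨k0, k1, k2⟩ := ncp_swp hc (hdep 0 (ptr F J ω)) (swG_dep (g2 := g2)
    (fun a l => hdep 0 a l) hg2 (ptr F J ω)) (by rw [e1]; exact hg2 _) e0 e2 hD (bt F ω)
  rw [e1] at k0 k2
  have p : ∀ i : ℕ, (0 : ℝ) < 2 ^ i := fun i => by positivity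
  have q0 := (p (gm 0)).ne'
  have q1 := (p (gm 1)).ne'
  have q2 := (p (gm 2)).ne'
  have ee : (2 : ℝ) ^ gm 2 = 2 ^ (gm 2 - e) * 2 ^ e := by
    rw [← pow_add, Nat.sub_add_cancel he]
  have q3 := (p (gm 2 - e)).ne'
  unfold gnh nc2
  rw [e3, en, swM3, swM0, swM1, swM2, k0, k1, k2]
  refine ⟨?_, ?_, ?_⟩
  · field_simp
  · rw [ee]
    have := (p e).ne'
    field_simp
  · field_simp

/-- **The event of the gradient for the swapped list.** -/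
theorem grdE_sw {gm : ℕ → ℕ} {e ks n q₀ D X : ℕ} (he : e ≤ gm 2) {U Λ : ℝ} {B : F.Ω → Prop}
    (hG : GrdE F c 0 3 ks n q₀ X gm U B G) (hΛ0 : 0 ≤ Λ)
    (hΛ : 4 * 2 ^ e + 9 * Λ ≤ 4 * 2 ^ D)
    (n1 : ∀ ω, B ω → ∀ j < 2, 2 ^ gm 2 / 2 ^ gm j * |nc2 F c G g2 ω j| ≤ Λ)
    (n2 : ∀ ω ν, B ω → B ν → F.t ω = F.t ν →
      (∀ j < 2, |hgt F c (G 0) ω j - hgt F c (G 0) ν j| ≤ 2 ^ 2 / 2 ^ (gm j + (q₀ + D))) →
      (∀ l ≤ 2, G 0 (ptr F J ω) l = G 0 (ptr F J ν) l) → g2 (ptr F J ω) = g2 (ptr F J ν) →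
      (∀ j < 2, 2 ^ gm 2 / 2 ^ gm j * |nc2 F c G g2 ω j - nc2 F c G g2 ν j| ≤ Λ / 2 ^ X) ∧
      2 ^ (gm 2 + (q₀ + D)) * |(dP F G g2 ω ω - dP F G g2 ν ν) - ∑ j ∈ range 2,
        nc2 F c G g2 ω j * (hgt F c (G 0) ω j - hgt F c (G 0) ν j)| ≤ Λ / 2 ^ X) :
    GrdE F (fun l => c (sw 1 l)) 0 3 (ks + 1) (n + 1) (q₀ + D) X (swM gm e) (2 ^ (D + 1) * U) B
      (swG G g2) := by
  have hU := hG.U0
  have pD : (1 : ℝ) ≤ 2 ^ D := one_le_pow₀ (by norm_num)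
  have pe : (1 : ℝ) ≤ 2 ^ e := one_le_pow₀ (by norm_num)
  have pD2 : (2 : ℝ) ^ (D + 1) = 2 * 2 ^ D := by ring
  have pX : (0 : ℝ) < 2 ^ X := by positivity
  have hΛD : 1 + 2 * Λ ≤ 2 ^ D := by linarith
  have heD : (2 : ℝ) ^ e ≤ 2 ^ D := by linarith
  -- the heights
  have h0 : ∀ ω, hgt F (fun l => c (sw 1 l)) (swG G g2 0) ω 0 = hgt F c (G 0) ω 0 := by
    intro ω
    show F.x ω (c (sw 1 0)) - eval (bt F ω)
      (if (0 : ℕ) = 1 then g2 (ptr F J ω) else G 0 (ptr F J ω) (sw 1 0)) = _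
    rw [if_neg (by norm_num), sw1_0]
    rfl
  have h1 : ∀ ω, hgt F c (G 0) ω 2 =
      hgt F (fun l => c (sw 1 l)) (swG G g2 0) ω 1 + dP F G g2 ω ω := by
    intro ω
    show F.x ω (c 2) - eval (bt F ω) (G 0 (ptr F J ω) 2) =
      (F.x ω (c (sw 1 1)) - eval (bt F ω) (g2 (ptr F J ω))) +
        eval (bt F ω) (g2 (ptr F J ω) - G 0 (ptr F J ω) 2)
    rw [sw1_1, map_sub]
    ring
  have h2 : ∀ ω, hgt F (fun l => c (sw 1 l)) (swG G g2 0) ω 2 = hgt F c (G 0) ω 1 := by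
    intro ω
    show F.x ω (c (sw 1 2)) - eval (bt F ω)
      (if (2 : ℕ) = 1 then g2 (ptr F J ω) else G 0 (ptr F J ω) (sw 1 2)) = _
    rw [if_neg (by norm_num), sw1_2]
    rfl
  have h3 : ∀ ω, hgt F (fun l => c (sw 1 l)) (swG G g2 0) ω 3 = hgt F c (G 0) ω 3 := by
    intro ω
    show F.x ω (c (sw 1 3)) - eval (bt F ω)
      (if (3 : ℕ) = 1 then g2 (ptr F J ω) else G 0 (ptr F J ω) (sw 1 3)) = _
    rw [if_neg (by norm_num), sw1_3]
    rfl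
  -- the charts
  have hch : ∀ {kk : ℕ} {ω ν : F.Ω}, (∀ k ≤ kk + 1, ∀ l ≤ 3,
      swG G g2 k (ptr F J ω) l = swG G g2 k (ptr F J ν) l) →
      (∀ k ≤ kk, ∀ l ≤ 3, G k (ptr F J ω) l = G k (ptr F J ν) l) ∧
        g2 (ptr F J ω) = g2 (ptr F J ν) := by
    intro kk ω ν h
    refine ⟨fun k hk l hl => ?_, ?_⟩
    · have h4 := h (k + 1) (by omega) (sw 1 l) (by
        have := sw_mem (k := 1) (n := 4) (i := l) (Or.inr (by norm_num)) (by omega)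
        omega)
      have h5 : G k (ptr F J ω) (sw 1 (sw 1 l)) = G k (ptr F J ν) (sw 1 (sw 1 l)) := h4
      rwa [sw_sw] at h5
    · have h4 := h 0 (Nat.zero_le _) 1 (by norm_num)
      have h5 : (if (1 : ℕ) = 1 then g2 (ptr F J ω) else G 0 (ptr F J ω) (sw 1 1)) =
        if (1 : ℕ) = 1 then g2 (ptr F J ν) else G 0 (ptr F J ν) (sw 1 1) := h4
      rwa [if_pos rfl, if_pos rfl] at h5
  -- near points
  have near : ∀ {kk : ℕ} {ω ν : F.Ω}, B ω → B ν → F.t ω = F.t ν →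
      (∀ j < 3, 0 ≤ j → |hgt F (fun l => c (sw 1 l)) (swG G g2 0) ω j -
        hgt F (fun l => c (sw 1 l)) (swG G g2 0) ν j| ≤ 2 ^ 2 / 2 ^ (swM gm e j + (q₀ + D))) →
      (∀ k ≤ kk + 1, ∀ l ≤ 3, swG G g2 k (ptr F J ω) l = swG G g2 k (ptr F J ν) l) →
      (∀ j < 2, 2 ^ gm 2 / 2 ^ gm j * |nc2 F c G g2 ω j - nc2 F c G g2 ν j| ≤ Λ / 2 ^ X) ∧
      2 ^ (gm 2 + (q₀ + D)) * |(dP F G g2 ω ω - dP F G g2 ν ν) - ∑ j ∈ range 2,
        nc2 F c G g2 ω j * (hgt F c (G 0) ω j - hgt F c (G 0) ν j)| ≤ Λ / 2 ^ X ∧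
      (∀ j < 3, 0 ≤ j → |hgt F c (G 0) ω j - hgt F c (G 0) ν j| ≤ 2 ^ 2 / 2 ^ (gm j + q₀)) := by
    intro kk ω ν hω hν ht hh hg
    obtain ⟨g3, g4⟩ := hch hg
    have a0 := hh 0 (by norm_num) le_rfl
    have a1 := hh 1 (by norm_num) (by norm_num)
    have a2 := hh 2 (by norm_num) (by norm_num)
    rw [h0, h0, swM0] at a0
    rw [swM1] at a1
    rw [h2, h2, swM2] at a2
    have hn : ∀ j < 2, |hgt F c (G 0) ω j - hgt F c (G 0) ν j| ≤
        2 ^ 2 / 2 ^ (gm j + (q₀ + D)) := by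
      intro j hj
      interval_cases j
      · exact a0
      · exact a2
    obtain ⟨b1, b2⟩ := n2 ω ν hω hν ht hn (fun l hl => g3 0 (Nat.zero_le _) l (by omega)) g4
    refine ⟨b1, b2, fun j hj _ => ?_⟩
    have up : ∀ i : ℕ, (2 : ℝ) ^ 2 / 2 ^ (i + (q₀ + D)) ≤ 2 ^ 2 / 2 ^ (i + q₀) := fun i =>
      div_le_div_of_nonneg_left (by norm_num) (by positivity)
        (pow_le_pow_right₀ (by norm_num) (by omega))
    interval_cases j
    · exact a0.trans (up _)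
    · exact a2.trans (up _)
    · rw [h1, h1]
      obtain ⟨R, hR⟩ : ∃ R : ℝ, R = (dP F G g2 ω ω - dP F G g2 ν ν) - ∑ j ∈ range 2,
        nc2 F c G g2 ω j * (hgt F c (G 0) ω j - hgt F c (G 0) ν j) := ⟨_, rfl⟩
      rw [← hR] at b2
      rw [Finset.sum_range_succ, Finset.sum_range_one] at hR
      obtain ⟨A, hA⟩ : ∃ A : ℝ, A = hgt F (fun l => c (sw 1 l)) (swG G g2 0) ω 1 -
        hgt F (fun l => c (sw 1 l)) (swG G g2 0) ν 1 := ⟨_, rfl⟩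
      rw [← hA] at a1
      have ed : hgt F (fun l => c (sw 1 l)) (swG G g2 0) ω 1 + dP F G g2 ω ω -
          (hgt F (fun l => c (sw 1 l)) (swG G g2 0) ν 1 + dP F G g2 ν ν) =
          A + nc2 F c G g2 ω 0 * (hgt F c (G 0) ω 0 - hgt F c (G 0) ν 0) +
          nc2 F c G g2 ω 1 * (hgt F c (G 0) ω 1 - hgt F c (G 0) ν 1) + R := by
        rw [hR, hA]
        ring
      rw [ed]
      obtain ⟨T, hT⟩ : ∃ T : ℝ, T = 2 ^ (gm 2 + (q₀ + D)) := ⟨_, rfl⟩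
      have hT0 : 0 < T := by rw [hT]; positivity
      have c1 : T * |A| ≤ 4 * 2 ^ e := by
        have e4 : T = 2 ^ (gm 2 - e + (q₀ + D)) * 2 ^ e := by
          rw [hT, ← pow_add]
          congr 1
          omega
        rw [le_div_iff₀ (by positivity)] at a1
        rw [e4]
        have e5 : (2 : ℝ) ^ (gm 2 - e + (q₀ + D)) * 2 ^ e * |A| =
          2 ^ e * (|A| * 2 ^ (gm 2 - e + (q₀ + D))) := by ring
        rw [e5]
        nlinarith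
      have c2 : ∀ j < 2, T * (|nc2 F c G g2 ω j| *
          |hgt F c (G 0) ω j - hgt F c (G 0) ν j|) ≤ 4 * Λ := by
        intro j hj
        have d1 := n1 ω hω j hj
        have d2 := hn j hj
        rw [le_div_iff₀ (by positivity)] at d2
        have e4 : T * (|nc2 F c G g2 ω j| * |hgt F c (G 0) ω j - hgt F c (G 0) ν j|) =
            (2 ^ gm 2 / 2 ^ gm j * |nc2 F c G g2 ω j|) *
              (|hgt F c (G 0) ω j - hgt F c (G 0) ν j| * 2 ^ (gm j + (q₀ + D))) := by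
          rw [hT, pow_add 2 (gm 2), pow_add 2 (gm j)]
          field_simp
        rw [e4]
        calc _ ≤ Λ * 2 ^ 2 := mul_le_mul d1 d2 (by positivity) hΛ0
          _ = 4 * Λ := by ring
      have c3 : T * |R| ≤ Λ := by
        rw [← hT] at b2
        refine b2.trans (div_le_self hΛ0 (one_le_pow₀ (by norm_num)))
      have c4 : T * |A + nc2 F c G g2 ω 0 * (hgt F c (G 0) ω 0 - hgt F c (G 0) ν 0) +
          nc2 F c G g2 ω 1 * (hgt F c (G 0) ω 1 - hgt F c (G 0) ν 1) + R| ≤ 4 * 2 ^ D := by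
        have d0 := abs_add_le (A + nc2 F c G g2 ω 0 * (hgt F c (G 0) ω 0 - hgt F c (G 0) ν 0) +
          nc2 F c G g2 ω 1 * (hgt F c (G 0) ω 1 - hgt F c (G 0) ν 1)) R
        have d1 := abs_add_le (A + nc2 F c G g2 ω 0 * (hgt F c (G 0) ω 0 - hgt F c (G 0) ν 0))
          (nc2 F c G g2 ω 1 * (hgt F c (G 0) ω 1 - hgt F c (G 0) ν 1))
        have d2 := abs_add_le A (nc2 F c G g2 ω 0 * (hgt F c (G 0) ω 0 - hgt F c (G 0) ν 0))
        rw [abs_mul] at d1 d2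
        have f0 := c2 0 (by norm_num)
        have f1 := c2 1 (by norm_num)
        have d3 := mul_le_mul_of_nonneg_left (d0.trans (add_le_add_left (d1.trans
          (add_le_add_left d2 _)) _)) hT0.le
        refine d3.trans ?_
        linarith
      rw [le_div_iff₀ (by positivity)]
      have e6 : T = 2 ^ (gm 2 + q₀) * 2 ^ D := by
        rw [hT, ← pow_add, Nat.add_assoc]
      rw [e6] at c4
      obtain ⟨Y, hY⟩ : ∃ Y : ℝ, Y = |A + nc2 F c G g2 ω 0 * (hgt F c (G 0) ω 0 -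
          hgt F c (G 0) ν 0) + nc2 F c G g2 ω 1 * (hgt F c (G 0) ω 1 - hgt F c (G 0) ν 1) +
          R| := ⟨_, rfl⟩
      rw [← hY] at c4 ⊢
      have pD0 : (0 : ℝ) < 2 ^ D := by positivity
      have e7 : (2 : ℝ) ^ (gm 2 + q₀) * 2 ^ D * Y = (Y * 2 ^ (gm 2 + q₀)) * 2 ^ D := by ring
      rw [e7] at c4
      have e8 := le_of_mul_le_mul_right c4 pD0
      linarith
  -- the gradients
  obtain ⟨gn, hgn⟩ : ∃ gn : F.Ω → ℕ → ℝ, gn = fun ω j => gnh F c 3 gm (G 0) (G n) ω j :=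
    ⟨_, rfl⟩
  obtain ⟨nv, hnv⟩ : ∃ nv : F.Ω → ℕ → ℝ, nv = fun ω j =>
    2 ^ gm 2 / 2 ^ gm j * nc2 F c G g2 ω j := ⟨_, rfl⟩
  have gall : ∀ ω, gnh F (fun l => c (sw 1 l)) 3 (swM gm e) (swG G g2 0) (swG G g2 (n + 1)) ω 0 =
      gn ω 0 + nv ω 0 * gn ω 2 ∧
      gnh F (fun l => c (sw 1 l)) 3 (swM gm e) (swG G g2 0) (swG G g2 (n + 1)) ω 1 =
      2 ^ e * gn ω 2 ∧
      gnh F (fun l => c (sw 1 l)) 3 (swM gm e) (swG G g2 0) (swG G g2 (n + 1)) ω 2 =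
      gn ω 1 + nv ω 1 * gn ω 2 := fun ω => by
    rw [hgn, hnv]
    exact gnh_all hc hdep hg2 he ω
  have gb : ∀ ω, B ω → ∀ j < 3, |gn ω j| ≤ U := fun ω hω j hj => by
    rw [hgn]
    exact hG.bm ω hω j hj (Nat.zero_le _)
  have nb : ∀ ω, B ω → ∀ j < 2, |nv ω j| ≤ Λ := fun ω hω j hj => by
    rw [hnv]
    show |2 ^ gm 2 / 2 ^ gm j * nc2 F c G g2 ω j| ≤ Λ
    rw [abs_mul, abs_of_pos (by positivity)]
    exact n1 ω hω j hj
  have nd : ∀ ω ν, (∀ j < 2, 2 ^ gm 2 / 2 ^ gm j * |nc2 F c G g2 ω j - nc2 F c G g2 ν j| ≤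
      Λ / 2 ^ X) → ∀ j < 2, |nv ω j - nv ν j| ≤ Λ / 2 ^ X := fun ω ν h j hj => by
    rw [hnv]
    show |2 ^ gm 2 / 2 ^ gm j * nc2 F c G g2 ω j - 2 ^ gm 2 / 2 ^ gm j * nc2 F c G g2 ν j| ≤ _
    rw [← mul_sub, abs_mul, abs_of_pos (by positivity)]
    exact h j hj
  have hUX : 0 ≤ U / 2 ^ X := by positivity
  -- the difference of the gradients
  have gd : ∀ ω ν, B ω → B ν → (∀ j < 3, |gn ω j - gn ν j| ≤ U / 2 ^ X) →
      (∀ j < 2, |nv ω j - nv ν j| ≤ Λ / 2 ^ X) → ∀ j < 3, 0 ≤ j →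
      |gnh F (fun l => c (sw 1 l)) 3 (swM gm e) (swG G g2 0) (swG G g2 (n + 1)) ω j -
        gnh F (fun l => c (sw 1 l)) 3 (swM gm e) (swG G g2 0) (swG G g2 (n + 1)) ν j| ≤
        2 ^ (D + 1) * U / 2 ^ X := by
    intro ω ν hω hν d1 d2 j hj _
    obtain ⟨k0, k1, k2⟩ := gall ω
    obtain ⟨l0, l1, l2⟩ := gall ν
    have main : ∀ i < 2, ∀ i' < 3, |(gn ω i' + nv ω i * gn ω 2) - (gn ν i' + nv ν i * gn ν 2)| ≤
        2 ^ (D + 1) * U / 2 ^ X := by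
      intro i hi i' hi'
      have e1 : (gn ω i' + nv ω i * gn ω 2) - (gn ν i' + nv ν i * gn ν 2) =
          (gn ω i' - gn ν i') + nv ω i * (gn ω 2 - gn ν 2) + (nv ω i - nv ν i) * gn ν 2 := by
        ring
      have f1 := d1 i' hi'
      have f2 : |nv ω i * (gn ω 2 - gn ν 2)| ≤ Λ * (U / 2 ^ X) := by
        rw [abs_mul]
        exact mul_le_mul (nb ω hω i hi) (d1 2 (by norm_num)) (abs_nonneg _) hΛ0
      have f3 : |(nv ω i - nv ν i) * gn ν 2| ≤ Λ / 2 ^ X * U := by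
        rw [abs_mul]
        exact mul_le_mul (d2 i hi) (gb ν hν 2 (by norm_num)) (abs_nonneg _) (by positivity)
      rw [e1]
      have g1 := abs_add_le ((gn ω i' - gn ν i') + nv ω i * (gn ω 2 - gn ν 2))
        ((nv ω i - nv ν i) * gn ν 2)
      have g2' := abs_add_le (gn ω i' - gn ν i') (nv ω i * (gn ω 2 - gn ν 2))
      have e2 : Λ / 2 ^ X * U = Λ * (U / 2 ^ X) := by ring
      have e3 : 2 ^ (D + 1) * U / 2 ^ X = 2 ^ (D + 1) * (U / 2 ^ X) := by ring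
      rw [e3, pD2]
      have g3 : (1 + 2 * Λ) * (U / 2 ^ X) ≤ 2 * 2 ^ D * (U / 2 ^ X) :=
        mul_le_mul_of_nonneg_right (by linarith) hUX
      linarith
    interval_cases j
    · rw [k0, l0]
      exact main 0 (by norm_num) 0 (by norm_num)
    · rw [k1, l1, ← mul_sub, abs_mul, abs_of_pos (by positivity)]
      have f1 := d1 2 (by norm_num)
      have e3 : 2 ^ (D + 1) * U / 2 ^ X = 2 ^ (D + 1) * (U / 2 ^ X) := by ring
      rw [e3, pD2]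
      calc (2 : ℝ) ^ e * |gn ω 2 - gn ν 2| ≤ 2 ^ D * (U / 2 ^ X) :=
            mul_le_mul heD f1 (abs_nonneg _) (by positivity)
        _ ≤ 2 * 2 ^ D * (U / 2 ^ X) := mul_le_mul_of_nonneg_right (by linarith) hUX
    · rw [k2, l2]
      exact main 1 (by norm_num) 1 (by norm_num)
  refine ⟨by positivity, ?_, ?_, ?_, ?_⟩
  · intro ω hω j hj _
    obtain ⟨k0, k1, k2⟩ := gall ω
    have main : ∀ i < 2, ∀ i' < 3, |gn ω i' + nv ω i * gn ω 2| ≤ 2 ^ (D + 1) * U := by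
      intro i hi i' hi'
      have f1 := gb ω hω i' hi'
      have f2 : |nv ω i * gn ω 2| ≤ Λ * U := by
        rw [abs_mul]
        exact mul_le_mul (nb ω hω i hi) (gb ω hω 2 (by norm_num)) (abs_nonneg _) hΛ0
      have g1 := abs_add_le (gn ω i') (nv ω i * gn ω 2)
      rw [pD2]
      have g3 : (1 + Λ) * U ≤ 2 * 2 ^ D * U := mul_le_mul_of_nonneg_right (by linarith) hU
      linarith
    interval_cases j
    · rw [k0]
      exact main 0 (by norm_num) 0 (by norm_num)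
    · rw [k1, abs_mul, abs_of_pos (by positivity), pD2]
      have f1 := gb ω hω 2 (by norm_num)
      calc (2 : ℝ) ^ e * |gn ω 2| ≤ 2 ^ D * U :=
            mul_le_mul heD f1 (abs_nonneg _) (by positivity)
        _ ≤ 2 * 2 ^ D * U := mul_le_mul_of_nonneg_right (by linarith) hU
    · rw [k2]
      exact main 1 (by norm_num) 1 (by norm_num)
  · intro ω ν hω hν ht _ hh hg
    obtain ⟨b1, _, b3⟩ := near hω hν ht hh hg
    obtain ⟨g3, _⟩ := hch hg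
    exact gd ω ν hω hν (fun j hj => by
      have := hG.bj ω ν hω hν ht (fun l hl => absurd hl (Nat.not_lt_zero l)) b3 g3 j hj
        (Nat.zero_le _)
      rw [hgn]
      exact this) (nd ω ν b1)
  · intro ω ν hω hν ht _ hh hg
    obtain ⟨b1, _, b3⟩ := near hω hν ht hh hg
    obtain ⟨g3, _⟩ := hch hg
    exact gd ω ν hω hν (fun j hj => by
      have := hG.bx ω ν hω hν ht (fun l hl => absurd hl (Nat.not_lt_zero l)) b3 g3 j hj
        (Nat.zero_le _)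
      rw [hgn]
      exact this) (nd ω ν b1)
  · intro ω ν hω hν ht _ hh hg
    obtain ⟨b1, b2, b3⟩ := near hω hν ht hh hg
    obtain ⟨g3, _⟩ := hch hg
    have h5 := hG.nx ω ν hω hν ht (fun l hl => absurd hl (Nat.not_lt_zero l)) b3 g3
    obtain ⟨k0, k1, k2⟩ := gall ω
    rw [Nat.Ico_zero_eq_range, Finset.sum_range_succ, Finset.sum_range_succ,
      Finset.sum_range_one] at h5 ⊢
    rw [Finset.sum_range_succ, Finset.sum_range_one] at b2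
    have e5 : ∀ j, gnh F c 3 gm (G 0) (G n) ω j = gn ω j := fun j => by rw [hgn]
    rw [e5, e5, e5, h1, h1] at h5
    rw [k0, k1, k2, h0, h0, h2, h2, h3, h3, swM0, swM1, swM2, swM3]
    obtain ⟨x0, hx0⟩ : ∃ x0, x0 = hgt F c (G 0) ω 0 - hgt F c (G 0) ν 0 := ⟨_, rfl⟩
    obtain ⟨x1, hx1⟩ : ∃ x1, x1 = hgt F c (G 0) ω 1 - hgt F c (G 0) ν 1 := ⟨_, rfl⟩
    obtain ⟨x3, hx3⟩ : ∃ x3, x3 = hgt F c (G 0) ω 3 - hgt F c (G 0) ν 3 := ⟨_, rfl⟩
    obtain ⟨A, hA⟩ : ∃ A : ℝ, A = hgt F (fun l => c (sw 1 l)) (swG G g2 0) ω 1 -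
      hgt F (fun l => c (sw 1 l)) (swG G g2 0) ν 1 := ⟨_, rfl⟩
    obtain ⟨y0, hy0⟩ : ∃ y0, y0 = nc2 F c G g2 ω 0 := ⟨_, rfl⟩
    obtain ⟨y1, hy1⟩ : ∃ y1, y1 = nc2 F c G g2 ω 1 := ⟨_, rfl⟩
    obtain ⟨Q, hQ⟩ : ∃ Q, Q = dP F G g2 ω ω - dP F G g2 ν ν := ⟨_, rfl⟩
    have e6 : hgt F (fun l => c (sw 1 l)) (swG G g2 0) ω 1 + dP F G g2 ω ω -
        (hgt F (fun l => c (sw 1 l)) (swG G g2 0) ν 1 + dP F G g2 ν ν) = A + Q := by
      rw [hA, hQ]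
      ring
    rw [e6, ← hx0, ← hx1, ← hx3] at h5
    rw [← hx0, ← hx1, ← hy0, ← hy1, ← hQ] at b2
    have ev0 : nv ω 0 = 2 ^ gm 2 / 2 ^ gm 0 * y0 := by rw [hnv, hy0]
    have ev1 : nv ω 1 = 2 ^ gm 2 / 2 ^ gm 1 * y1 := by rw [hnv, hy1]
    rw [← hx0, ← hx1, ← hx3, ← hA, ev0, ev1]
    have p2 : (2 : ℝ) ^ gm 2 = 2 ^ (gm 2 - e) * 2 ^ e := by
      rw [← pow_add, Nat.sub_add_cancel he]
    have q0 : (2 : ℝ) ^ gm 0 ≠ 0 := by positivity
    have q1 : (2 : ℝ) ^ gm 1 ≠ 0 := by positivity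
    -- the identity
    have key : 2 ^ (gm 3 + (q₀ + D)) * x3 -
        ((gn ω 0 + 2 ^ gm 2 / 2 ^ gm 0 * y0 * gn ω 2) * (2 ^ (gm 0 + (q₀ + D)) * x0) +
          2 ^ e * gn ω 2 * (2 ^ (gm 2 - e + (q₀ + D)) * A) +
          (gn ω 1 + 2 ^ gm 2 / 2 ^ gm 1 * y1 * gn ω 2) * (2 ^ (gm 1 + (q₀ + D)) * x1)) =
        2 ^ D * (2 ^ (gm 3 + q₀) * x3 - (gn ω 0 * (2 ^ (gm 0 + q₀) * x0) +
          gn ω 1 * (2 ^ (gm 1 + q₀) * x1) + gn ω 2 * (2 ^ (gm 2 + q₀) * (A + Q)))) +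
        gn ω 2 * (2 ^ (gm 2 + (q₀ + D)) * (Q - (y0 * x0 + y1 * x1))) := by
      rw [pow_add 2 (gm 3) (q₀ + D), pow_add 2 (gm 0) (q₀ + D), pow_add 2 (gm 2 - e) (q₀ + D),
        pow_add 2 (gm 1) (q₀ + D), pow_add 2 (gm 3) q₀, pow_add 2 (gm 0) q₀,
        pow_add 2 (gm 1) q₀, pow_add 2 (gm 2) q₀, pow_add 2 (gm 2) (q₀ + D), pow_add 2 q₀ D, p2]
      field_simp
      ring
    rw [key]
    have f1 : |2 ^ D * (2 ^ (gm 3 + q₀) * x3 - (gn ω 0 * (2 ^ (gm 0 + q₀) * x0) +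
        gn ω 1 * (2 ^ (gm 1 + q₀) * x1) + gn ω 2 * (2 ^ (gm 2 + q₀) * (A + Q))))| ≤
        2 ^ D * (U / 2 ^ X) := by
      rw [abs_mul, abs_of_pos (by positivity : (0 : ℝ) < 2 ^ D)]
      exact mul_le_mul_of_nonneg_left h5 (by positivity)
    have f2 : |gn ω 2 * (2 ^ (gm 2 + (q₀ + D)) * (Q - (y0 * x0 + y1 * x1)))| ≤
        U * (Λ / 2 ^ X) := by
      rw [abs_mul, abs_mul, abs_of_pos (by positivity : (0 : ℝ) < 2 ^ (gm 2 + (q₀ + D)))]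
      exact mul_le_mul (gb ω hω 2 (by norm_num)) b2 (by positivity) hU
    refine (abs_add_le _ _).trans ((add_le_add f1 f2).trans ?_)
    have e7 : 2 ^ (D + 1) * U / 2 ^ X = 2 ^ D * (U / 2 ^ X) + 2 ^ D * (U / 2 ^ X) := by
      rw [pD2]
      ring
    rw [e7]
    have e8 : U * (Λ / 2 ^ X) = Λ * (U / 2 ^ X) := by ring
    rw [e8]
    have g3 : Λ * (U / 2 ^ X) ≤ 2 ^ D * (U / 2 ^ X) := mul_le_mul_of_nonneg_right (by linarith) hUX
    linarith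

end

end Pool.TSW66
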