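import Pool.Agent.H66.TSW.Gsw
import Pool.Agent.H57.AVN.Cgs
import Pool.Agent.H17.COR.Cdc

/-!
# The labels of the swapped list

`co_cpl`: the coefficients of the own path over an affine chart. `lbsE_sw`, `clU_sw`: the labels and the
closed charts of the swapped list.
-/

set_option autoImplicit false

namespace Pool.TSW66

open Finset Real MvPolynomial
open Pool.Agent.H49.Ent Pool.Agent.H32.Dense Pool.STK Pool.KA Pool.KSAT Pool.K2S Pool.PB Pool.S6C
open Pool.GEN Pool.CHT Pool.CHX Pool.ISO Pool.D2R Pool.AVG57 Pool.LA91 Pool.AVG71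
open Pool.MIC6 (deg_afq eval_afq afq)
open Pool.OWN17 (ChA cpl oh ov cpl_ojet)
open Pool.PB.Trl (rt rt_mem t_rt)
open Pool.SWP (sw sw_k sw_k1 sw_ne sw_lt sw_gt sw_sw sw_mem)

variable {m J : ℕ}

/-- **The coefficients of the own path over an affine chart.** -/
theorem co_cpl {F : Fam m J} {κ k : Fin m} {w M E : ℕ} {a : LnT F → Fin 4 → ℝ}
    {A : F.Ω → Prop} (h : ChA F κ κ k w M E a A) (hw : w ≤ J) {ω : F.Ω} (hω : A ω) (b : ℕ) :
    |(dv w (fun s (_ : Fin m) => cpl κ κ (a s)) k (slam F w ω)).coeff b| ≤ 12 := by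
  obtain ⟨P, hP⟩ : ∃ P : Polynomial ℝ, P = dv w (fun s (_ : Fin m) => cpl κ κ (a s)) k
    (slam F w ω) := ⟨_, rfl⟩
  have hdeg : P.natDegree ≤ 2 := by
    rw [hP]
    exact natDegree_dv w (G := fun s (_ : Fin m) => cpl κ κ (a s)) (K := 1)
      (fun s _ => deg_afq _ _ _ _ _ _) k (slam F w ω)
  have ht : ∀ j, |(Polynomial.taylor (rt F w ω) P).coeff j| ≤ 1 := by
    intro j
    rw [hP, ojet_tay F hw ω k (fun s (_ : Fin m) => cpl κ κ (a s)) j]
    obtain ⟨o0, o1⟩ := cpl_ojet F κ κ k (a (slam F w ω)) ω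
    rcases Nat.lt_or_ge j 2 with hj | hj
    · interval_cases j
      · rw [o0]
        have h1 := h.pos ω hω
        have h2 : (1 : ℝ) / 2 ^ M ≤ 1 := by
          rw [div_le_one (by positivity)]
          exact one_le_pow₀ (by norm_num)
        simp only [Nat.factorial_zero, Nat.cast_one, pow_zero, mul_one, div_one]
        linarith
      · rw [o1]
        have h1 := h.vel ω hω
        simp only [Nat.factorial_one, Nat.cast_one, pow_one, one_mul]
        rw [abs_div, abs_of_pos (by positivity : (0 : ℝ) < 2 ^ w), div_le_one (by positivity)]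
        exact h1.trans (div_le_self (by positivity) (one_le_pow₀ (by norm_num)))
    · have h1 : aeval (lp (bt F ω) (bd F ω)) (X (some k) - cpl κ κ (a (slam F w ω))) =
          Polynomial.C (oh F κ κ k (a (slam F w ω)) ω) +
            Polynomial.C (ov F κ κ k (a (slam F w ω)) ω) * Polynomial.X := by
        refine Polynomial.funext fun t => ?_
        rw [eval_alp, map_sub, eval_X]
        unfold cpl
        rw [eval_afq]
        simp only [Polynomial.eval_add, Polynomial.eval_mul, Polynomial.eval_C, Polynomial.eval_X]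
        show (F.x ω k + t * F.d ω k) - (a (slam F w ω) 0 + (a (slam F w ω) 1 *
          (F.t ω + t * 1) + (a (slam F w ω) 2 * (F.x ω κ + t * F.d ω κ) +
          a (slam F w ω) 3 * (F.x ω κ + t * F.d ω κ)))) = _
        unfold oh ov
        ring
      have h2 : ojet F k j (cpl κ κ (a (slam F w ω))) ω = 0 := by
        unfold ojet jet
        rw [h1]
        have h3 : (Polynomial.C (oh F κ κ k (a (slam F w ω)) ω) +
            Polynomial.C (ov F κ κ k (a (slam F w ω)) ω) * Polynomial.X).natDegree < j := by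
          refine lt_of_le_of_lt ?_ hj
          refine (Polynomial.natDegree_add_le _ _).trans (max_le ?_ ?_)
          · rw [Polynomial.natDegree_C]
            exact Nat.zero_le _
          · exact (Polynomial.natDegree_C_mul_le _ _).trans Polynomial.natDegree_X_le
        rw [Polynomial.iterate_derivative_eq_zero h3, Polynomial.eval_zero]
      rw [h2, zero_div, abs_zero]
      norm_num
  have e1 : P = Polynomial.taylor (-(rt F w ω)) (Polynomial.taylor (rt F w ω) P) := by
    rw [Polynomial.taylor_taylor, neg_add_cancel, Polynomial.taylor_zero]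
  have hd2 : (Polynomial.taylor (rt F w ω) P).natDegree ≤ 2 := by
    rw [Polynomial.natDegree_taylor]
    exact hdeg
  have h2 := tay_coef hd2 (a := b) (s := -(rt F w ω)) (ε := 1) (by
    rw [abs_neg, abs_of_nonneg (rt_mem F _ ω).1]
    exact (rt_mem F _ ω).2) (by norm_num) fun b _ => ht b
  rw [← e1] at h2
  rw [← hP]
  norm_num at h2 ⊢
  exact h2

/-- The closed polynomials of the swapped list. -/
noncomputable def swH {F : Fam m J} (H : LnT F → ℕ → MvPolynomial (Option (Fin m)) ℝ)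
    (h2 : LnT F → MvPolynomial (Option (Fin m)) ℝ) (s : LnT F) (l : ℕ) :
    MvPolynomial (Option (Fin m)) ℝ := if l = 1 then h2 s else H s (sw 1 l)

section

variable {F : Fam m J} {c : ℕ → Fin m} {K : ℕ} {w : ℝ} {p s : ℕ → ℝ} {E : ℝ} {gm : ℕ → ℕ}
  {B : F.Ω → Prop} {G : ℕ → PtT F → ℕ → MvPolynomial (Option (Fin m)) ℝ}
  {H : LnT F → ℕ → MvPolynomial (Option (Fin m)) ℝ}

theorem sw_le3 {l : ℕ} (hl : l ≤ 3) : sw 1 l ≤ 3 := by
  have := sw_mem (k := 1) (n := 4) (i := l) (Or.inr (by norm_num)) (by omega)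
  omega

theorem hgt_sw {g2 : PtT F → MvPolynomial (Option (Fin m)) ℝ} (ω : F.Ω) (l : ℕ) (hl : l ≠ 1) :
    hgt F (fun l => c (sw 1 l)) (swG G g2 0) ω l = hgt F c (G 0) ω (sw 1 l) := by
  show F.x ω (c (sw 1 l)) - eval (bt F ω)
    (if l = 1 then g2 (ptr F J ω) else G 0 (ptr F J ω) (sw 1 l)) = _
  rw [if_neg hl]
  rfl

/-- **The labels of the swapped list.** -/
theorem lbsE_sw (L : LbsE F c 2 K w p s E gm B (G 0) H) (hK : 1 ≤ K) (hw : ⌊w * J⌋₊ ≤ J)
    (hJ : 4 ≤ J) {M₂ E₂ : ℕ} {a : LnT F → Fin 4 → ℝ}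
    (ha : ChA F (c 0) (c 0) (c 2) ⌊w * J⌋₊ M₂ E₂ a B) {φ : PtT F → Fin 4 → ℝ}
    (hφ : ∀ ω, B ω → a (slam F ⌊w * J⌋₊ ω) = φ (ptr F J ω)) (hM : ⌊p 2 * J⌋₊ ≤ M₂) :
    LbsE F (fun l => c (sw 1 l)) 2 K w (fun l => p (sw 1 l)) (fun l => s (sw 1 l)) (max E 1)
      (swM gm (gm 2 - M₂)) B (swG G (fun y => cpl (c 0) (c 0) (φ y)) 0)
      (swH H fun s => cpl (c 0) (c 0) (a s)) := by
  have hJ0 : (0 : ℝ) ≤ J := Nat.cast_nonneg J
  have hcp : ∀ x : Fin 4 → ℝ, DepC c 1 (cpl (c 0) (c 0) x) := fun x b b' h0 h1 => by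
    unfold cpl
    rw [eval_afq, eval_afq, h0, h1 0 (by norm_num)]
  have hmin : gm 2 - (gm 2 - M₂) = min (gm 2) M₂ := by omega
  refine ⟨fun s l => ?_, fun s l => ?_, fun ω hω l hl => ?_, fun ω hω l hl => ?_, fun l hl => ?_,
    fun l hl => ?_, fun ω hω l hl b => ?_⟩
  · show (if l = 1 then cpl (c 0) (c 0) (a s) else H s (sw 1 l)).totalDegree ≤ K
    split_ifs
    · exact (deg_afq _ _ _ _ _ _).trans hK
    · exact L.deg _ _
  · show DepC _ l (if l = 1 then cpl (c 0) (c 0) (a s) else H s (sw 1 l))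
    split_ifs with h1
    · subst h1
      exact depC_sw (Or.inl le_rfl) (hcp _)
    · rcases Nat.lt_or_ge l 3 with h3 | h3
      · interval_cases l
        · rw [sw1_0]
          exact depC_sw (Or.inl (by norm_num)) (L.dep s 0)
        · exact absurd rfl h1
        · rw [sw1_2]
          exact depC_up (by norm_num) (depC_sw (k := 1) (Or.inl le_rfl) (L.dep s 1))
      · rw [sw_gt (by omega : 1 + 1 < l)]
        exact depC_sw (Or.inr (by omega)) (L.dep s l)
  · show (if l = 1 then cpl (c 0) (c 0) (φ (ptr F J ω)) else G 0 (ptr F J ω) (sw 1 l)) =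
      if l = 1 then cpl (c 0) (c 0) (a (slam F ⌊w * J⌋₊ ω)) else H (slam F ⌊w * J⌋₊ ω) (sw 1 l)
    split_ifs with h1
    · rw [hφ ω hω]
    · exact L.cls ω hω (sw 1 l) (by
        have := sw_le3 (l := l) (by omega)
        omega)
  · rcases eq_or_ne l 1 with h1 | h1
    · subst h1
      rw [swM1, hmin]
      have h2 := ha.pos ω hω
      rw [hφ ω hω] at h2
      have e1 : hgt F (fun l => c (sw 1 l)) (swG G (fun y => cpl (c 0) (c 0) (φ y)) 0) ω 1 =
          oh F (c 0) (c 0) (c 2) (φ (ptr F J ω)) ω := by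
        show F.x ω (c (sw 1 1)) - eval (bt F ω)
          (if (1 : ℕ) = 1 then cpl (c 0) (c 0) (φ (ptr F J ω)) else G 0 (ptr F J ω) (sw 1 1)) = _
        rw [if_pos rfl, sw1_1]
        unfold cpl
        rw [eval_afq]
        show F.x ω (c 2) - (φ (ptr F J ω) 0 + (φ (ptr F J ω) 1 * F.t ω +
          (φ (ptr F J ω) 2 * F.x ω (c 0) + φ (ptr F J ω) 3 * F.x ω (c 0)))) = _
        unfold oh
        ring
      rw [e1]
      exact h2.trans (one_div_le_one_div_of_le (by positivity)
        (pow_le_pow_right₀ (by norm_num) (min_le_right _ _)))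
    · rw [hgt_sw ω l h1]
      have h2 : swM gm (gm 2 - M₂) l = gm (sw 1 l) := by
        unfold swM
        rw [if_neg h1]
      rw [h2]
      exact L.pos ω hω (sw 1 l) (sw_le3 (by omega))
  · show ⌊p (sw 1 l) * J⌋₊ ≤ swM gm (gm 2 - M₂) l
    rcases eq_or_ne l 1 with h1 | h1
    · subst h1
      rw [swM1, hmin, sw1_1]
      exact le_min (L.lo 2 (by norm_num)) hM
    · have h2 : swM gm (gm 2 - M₂) l = gm (sw 1 l) := by
        unfold swM
        rw [if_neg h1]
      rw [h2]
      exact L.lo (sw 1 l) (sw_le3 (by omega))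
  · show (swM gm (gm 2 - M₂) l : ℝ) ≤ s (sw 1 l) * J
    rcases eq_or_ne l 1 with h1 | h1
    · subst h1
      rw [swM1, hmin, sw1_1]
      refine le_trans ?_ (L.hi 2 (by norm_num))
      exact_mod_cast min_le_left _ _
    · have h2 : swM gm (gm 2 - M₂) l = gm (sw 1 l) := by
        unfold swM
        rw [if_neg h1]
      rw [h2]
      exact L.hi (sw 1 l) (sw_le3 (by omega))
  · rcases eq_or_ne l 1 with h1 | h1
    · subst h1
      have h2 := co_cpl ha hw hω b
      have e1 : dv ⌊w * J⌋₊ (fun s (_ : Fin m) => swH H (fun s => cpl (c 0) (c 0) (a s)) s 1)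
          (c (sw 1 1)) (slam F ⌊w * J⌋₊ ω) = dv ⌊w * J⌋₊ (fun s (_ : Fin m) =>
            cpl (c 0) (c 0) (a s)) (c 2) (slam F ⌊w * J⌋₊ ω) := by
        rw [sw1_1]
        have e2 : (fun (s : LnT F) (_ : Fin m) => swH H (fun s => cpl (c 0) (c 0) (a s)) s 1) =
            fun (s : LnT F) (_ : Fin m) => cpl (c 0) (c 0) (a s) := by
          funext s _
          exact if_pos rfl
        rw [e2]
      show |(dv ⌊w * J⌋₊ (fun s (_ : Fin m) => swH H (fun s => cpl (c 0) (c 0) (a s)) s 1)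
        (c (sw 1 1)) (slam F ⌊w * J⌋₊ ω)).coeff b| ≤ _
      rw [e1]
      refine h2.trans ?_
      have h3 : (12 : ℝ) ≤ 2 ^ (4 : ℝ) := by norm_num
      refine h3.trans (Real.rpow_le_rpow_of_exponent_le (by norm_num) ?_)
      have h4 : (4 : ℝ) ≤ J := by exact_mod_cast hJ
      calc (4 : ℝ) ≤ 1 * J := by linarith
        _ ≤ max E 1 * J := mul_le_mul_of_nonneg_right (le_max_right _ _) hJ0
    · have e2 : (fun (s : LnT F) (_ : Fin m) => swH H (fun s => cpl (c 0) (c 0) (a s)) s l) =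
          fun (s : LnT F) (_ : Fin m) => H s (sw 1 l) := by
        funext s _
        exact if_neg h1
      show |(dv ⌊w * J⌋₊ (fun s (_ : Fin m) => swH H (fun s => cpl (c 0) (c 0) (a s)) s l)
        (c (sw 1 l)) (slam F ⌊w * J⌋₊ ω)).coeff b| ≤ _
      rw [e2]
      refine (L.co ω hω (sw 1 l) (sw_le3 (by omega)) b).trans ?_
      exact Real.rpow_le_rpow_of_exponent_le (by norm_num)
        (mul_le_mul_of_nonneg_right (le_max_left _ _) hJ0)

/-- **The closed charts of the swapped list.** -/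
theorem clU_sw {g2 : PtT F → MvPolynomial (Option (Fin m)) ℝ} {w₀ x kk : ℕ}
    {H' : LnT F → ℕ → MvPolynomial (Option (Fin m)) ℝ} (h0 : Clsd F 4 w₀ B (swG G g2 0) H')
    (hw₀ : w₀ ≤ x) (h : ClU F 4 kk x B G) : ClU F 4 (kk + 1) x B (swG G g2) := by
  intro k hk
  cases k with
  | zero => exact ⟨w₀, H', hw₀, h0⟩
  | succ k =>
    obtain ⟨wk, Hk, h1, h2⟩ := h k (by omega)
    refine ⟨wk, fun s l => Hk s (sw 1 l), h1, fun ω hω l hl => ?_⟩
    exact h2 ω hω (sw 1 l) (by
      have := sw_le3 (l := l) (by omega)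
      omega)

end

end Pool.TSW66
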